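import Pool.Agent.Lib.MP_53fdf7_co.Aut

set_option autoImplicit false

namespace Pool.Agent.Lib.MP_53fdf7_co

/-- The faces of the apeirogon `{∞}`: vertices and edges indexed by the integers, the edge `i`
joins the vertices `i` and `i + 1`. -/
inductive Apg : Type
  | bot : Apg
  | vert (i : ℤ) : Apg
  | edge (i : ℤ) : Apg
  | top : Apg

namespace Apg

/-- The order on the apeirogon. -/
def le : Apg → Apg → Prop
  | bot, _ => True
  | _, top => True
  | vert i, vert j => i = j
  | vert i, edge j => i = j ∨ i = j + 1
  | edge i, edge j => i = j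
  | _, _ => False

instance : PartialOrder Apg where
  le := le
  le_refl a := by cases a <;> simp [le]
  le_trans a b c h1 h2 := by
    cases a <;> cases b <;> cases c <;> simp_all [le]
  le_antisymm a b h1 h2 := by
    cases a <;> cases b <;> simp_all [le]

theorem le_def (a b : Apg) : a ≤ b ↔ le a b := Iff.rfl

/-- The rank function of the apeirogon. -/
def rk : Apg → ℤ
  | bot => -1
  | vert _ => 0
  | edge _ => 1
  | top => 2

@[simp] theorem rk_bot : rk bot = -1 := rfl
@[simp] theorem rk_vert (i : ℤ) : rk (vert i) = 0 := rfl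
@[simp] theorem rk_edge (i : ℤ) : rk (edge i) = 1 := rfl
@[simp] theorem rk_top : rk top = 2 := rfl

@[simp] theorem bot_le' (a : Apg) : bot ≤ a := by rw [le_def]; cases a <;> simp [le]
@[simp] theorem le_top' (a : Apg) : a ≤ top := by rw [le_def]; cases a <;> simp [le]
@[simp] theorem vert_le_vert (i j : ℤ) : vert i ≤ vert j ↔ i = j := Iff.rfl
@[simp] theorem vert_le_edge (i j : ℤ) : vert i ≤ edge j ↔ i = j ∨ i = j + 1 := Iff.rfl
@[simp] theorem edge_le_edge (i j : ℤ) : edge i ≤ edge j ↔ i = j := Iff.rfl
@[simp] theorem not_edge_le_vert (i j : ℤ) : ¬ edge i ≤ vert j := fun h => h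
@[simp] theorem not_vert_le_bot (i : ℤ) : ¬ vert i ≤ bot := fun h => h
@[simp] theorem not_edge_le_bot (i : ℤ) : ¬ edge i ≤ bot := fun h => h
@[simp] theorem not_top_le_bot : ¬ top ≤ bot := fun h => h
@[simp] theorem not_top_le_vert (i : ℤ) : ¬ top ≤ vert i := fun h => h
@[simp] theorem not_top_le_edge (i : ℤ) : ¬ top ≤ edge i := fun h => h

theorem strictMono_rk : StrictMono rk := by
  intro a b h
  rw [lt_iff_le_not_ge] at h
  cases a <;> cases b <;> simp_all
  all_goals exact absurd h.1.symm h.2

theorem between (F G : Apg) (h : F < G) (hr : rk F + 1 < rk G) : ∃ H, F < H ∧ H < G := by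
  cases F with
  | bot =>
    cases G with
    | bot => simp at hr
    | vert i => simp at hr
    | edge i => exact ⟨vert i, by rw [lt_iff_le_not_ge]; simp, by rw [lt_iff_le_not_ge]; simp⟩
    | top => exact ⟨vert 0, by rw [lt_iff_le_not_ge]; simp, by rw [lt_iff_le_not_ge]; simp⟩
  | vert i =>
    cases G with
    | bot => simp at hr
    | vert j => simp at hr
    | edge j => simp at hr
    | top => exact ⟨edge i, by rw [lt_iff_le_not_ge]; simp, by rw [lt_iff_le_not_ge]; simp⟩
  | edge i => cases G <;> simp at hr
  | top => cases G <;> simp at hr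

theorem flag_rank (Φ : Flag Apg) (i : ℤ) (hi : -1 ≤ i) (hin : i ≤ (2 : ℕ)) :
    ∃! F : Apg, F ∈ Φ ∧ rk F = i :=
  flag_rank_of_between (n := 2) strictMono_rk (b := bot) (t := top) bot_le' rfl le_top' rfl
    between Φ i hi hin

/-- The flags of the apeirogon, indexed by the integers. -/
def fl (m : ℤ) : Flag Apg where
  carrier := {F | F = bot ∨ F = vert (m / 2) ∨ F = edge ((m - 1) / 2) ∨ F = top}
  Chain' := by
    rintro a (rfl | rfl | rfl | rfl) b (rfl | rfl | rfl | rfl) hne <;> simp <;> omega
  max_chain' := by
    intro S hS hsub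
    refine Set.Subset.antisymm hsub ?_
    intro F hF
    have h1 := hS.total hF (hsub (Or.inr (Or.inl rfl)))
    have h2 := hS.total hF (hsub (Or.inr (Or.inr (Or.inl rfl))))
    cases F with
    | bot => exact Or.inl rfl
    | vert i => right; left; simp at h1 ⊢; omega
    | edge i => right; right; left; simp at h2 ⊢; omega
    | top => right; right; right; rfl

theorem mem_fl {m : ℤ} {F : Apg} :
    F ∈ fl m ↔ F = bot ∨ F = vert (m / 2) ∨ F = edge ((m - 1) / 2) ∨ F = top := Iff.rfl

theorem exists_fl (Φ : Flag Apg) : ∃ m, Φ = fl m := by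
  obtain ⟨v, ⟨hv, hv0⟩, -⟩ := flag_rank Φ 0 (by norm_num) (by norm_num)
  obtain ⟨e, ⟨he, he1⟩, -⟩ := flag_rank Φ 1 (by norm_num) (by norm_num)
  have hb : bot ∈ Φ := Flag.mem_iff_forall_le_or_ge.2 fun c _ => Or.inl (bot_le' c)
  have ht : top ∈ Φ := Flag.mem_iff_forall_le_or_ge.2 fun c _ => Or.inr (le_top' c)
  obtain ⟨i, rfl⟩ : ∃ i, v = vert i := by cases v <;> simp_all
  obtain ⟨j, rfl⟩ : ∃ j, e = edge j := by cases e <;> simp_all
  have hle : i = j ∨ i = j + 1 := by
    rcases Φ.le_or_le hv he with h | h
    · simpa using h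
    · simp at h
  have key : ∀ m : ℤ, m / 2 = i → (m - 1) / 2 = j → Φ = fl m := by
    intro m h1 h2
    symm
    refine Flag.ext ((fl m).max_chain' Φ.chain_le ?_)
    rintro F (rfl | rfl | rfl | rfl)
    · exact hb
    · rw [h1]; exact hv
    · rw [h2]; exact he
    · exact ht
  rcases hle with h | h
  · exact ⟨2 * i + 1, key _ (by omega) (by omega)⟩
  · exact ⟨2 * i, key _ (by omega) (by omega)⟩

theorem flagAdj_symm {P : Type} [PartialOrder P] {A B : Flag P} (h : FlagAdj A B) :
    FlagAdj B A := ⟨h.2, h.1⟩

theorem rel_symm {P : Type} [PartialOrder P] {I : Set P} {A B : Flag P} (h : Rel I A B) :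
    Rel I B A := ⟨flagAdj_symm h.1, h.2.2, h.2.1⟩

theorem flagAdj_fl (m : ℤ) : FlagAdj (fl m) (fl (m + 1)) := by
  rcases Int.even_or_odd' m with ⟨i, rfl | rfl⟩
  · have e1 : (fl (2 * i) : Set Apg) \ fl (2 * i + 1) = {edge (i - 1)} := by
      ext F
      simp only [Set.mem_sdiff, SetLike.mem_coe, mem_fl, Set.mem_singleton_iff]
      cases F <;> simp <;> omega
    have e2 : (fl (2 * i + 1) : Set Apg) \ fl (2 * i) = {edge i} := by
      ext F
      simp only [Set.mem_sdiff, SetLike.mem_coe, mem_fl, Set.mem_singleton_iff]
      cases F <;> simp <;> omega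
    exact ⟨by rw [e1, Set.ncard_singleton], by rw [e2, Set.ncard_singleton]⟩
  · have e1 : (fl (2 * i + 1) : Set Apg) \ fl (2 * i + 1 + 1) = {vert i} := by
      ext F
      simp only [Set.mem_sdiff, SetLike.mem_coe, mem_fl, Set.mem_singleton_iff]
      cases F <;> simp <;> omega
    have e2 : (fl (2 * i + 1 + 1) : Set Apg) \ fl (2 * i + 1) = {vert (i + 1)} := by
      ext F
      simp only [Set.mem_sdiff, SetLike.mem_coe, mem_fl, Set.mem_singleton_iff]
      cases F <;> simp <;> omega
    exact ⟨by rw [e1, Set.ncard_singleton], by rw [e2, Set.ncard_singleton]⟩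

theorem path_fl (I : Set Apg) (hI : ∀ F ∈ I, F = bot ∨ F = top) (m : ℤ) (d : ℕ) :
    Relation.ReflTransGen (Rel I) (fl m) (fl (m + d)) ∧
      Relation.ReflTransGen (Rel I) (fl (m + d)) (fl m) := by
  have hsub : ∀ m, I ⊆ fl m := by
    intro m F hF
    rcases hI F hF with rfl | rfl
    · exact Or.inl rfl
    · exact Or.inr (Or.inr (Or.inr rfl))
  induction d with
  | zero => simp; exact Relation.ReflTransGen.refl
  | succ d ih =>
    have h : Rel I (fl (m + d)) (fl (m + d + 1)) := ⟨flagAdj_fl _, hsub _, hsub _⟩
    push_cast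
    rw [← add_assoc]
    exact ⟨ih.1.tail h, ih.2.head (rel_symm h)⟩

theorem connected (Φ Ψ : Flag Apg) :
    Relation.ReflTransGen (Rel ((Φ : Set Apg) ∩ Ψ)) Φ Ψ := by
  obtain ⟨m, rfl⟩ := exists_fl Φ
  obtain ⟨m', rfl⟩ := exists_fl Ψ
  by_cases h1 : m' = m
  · subst h1; exact Relation.ReflTransGen.refl
  by_cases h2 : m' = m + 1
  · subst h2
    exact Relation.ReflTransGen.single ⟨flagAdj_fl m, Set.inter_subset_left,
      Set.inter_subset_right⟩
  by_cases h3 : m = m' + 1
  · subst h3
    exact Relation.ReflTransGen.single ⟨flagAdj_symm (flagAdj_fl m'), Set.inter_subset_left,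
      Set.inter_subset_right⟩
  have hI : ∀ F ∈ ((fl m : Set Apg) ∩ fl m'), F = bot ∨ F = top := by
    rintro F ⟨hF, hF'⟩
    rcases hF with rfl | rfl | rfl | rfl
    · exact Or.inl rfl
    · rcases hF' with h | h | h | h
      · simp at h
      · simp at h; omega
      · simp at h
      · simp at h
    · rcases hF' with h | h | h | h
      · simp at h
      · simp at h
      · simp at h; omega
      · simp at h
    · exact Or.inr rfl
  rcases le_total m m' with h | h
  · obtain ⟨d, hd⟩ := Int.eq_ofNat_of_zero_le (sub_nonneg.2 h)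
    have : m' = m + d := by omega
    rw [this] at hI ⊢
    exact (path_fl _ hI m d).1
  · obtain ⟨d, hd⟩ := Int.eq_ofNat_of_zero_le (sub_nonneg.2 h)
    have : m = m' + d := by omega
    rw [this] at hI ⊢
    exact (path_fl _ hI m' d).2

theorem isAbstractPolytope : IsAbstractPolytope 2 Apg rk where
  strictMono := strictMono_rk
  exists_least := ⟨bot, bot_le', rfl⟩
  exists_greatest := ⟨top, le_top', rfl⟩
  flag_rank := flag_rank
  strongly_flag_connected := connected
  diamond := by
    intro F G hFG hr
    cases F with
    | bot =>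
      cases G with
      | edge i =>
        have : {H : Apg | bot < H ∧ H < edge i} = {vert i, vert (i + 1)} := by
          ext H
          simp only [lt_iff_le_not_ge, Set.mem_ofPred_eq, Set.mem_insert_iff,
            Set.mem_singleton_iff]
          cases H <;> simp <;> omega
        rw [this, Set.ncard_pair]
        simp
      | bot => simp at hr
      | vert i => simp at hr
      | top => simp at hr
    | vert i =>
      cases G with
      | top =>
        have : {H : Apg | vert i < H ∧ H < top} = {edge i, edge (i - 1)} := by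
          ext H
          simp only [lt_iff_le_not_ge, Set.mem_ofPred_eq, Set.mem_insert_iff,
            Set.mem_singleton_iff]
          cases H <;> simp <;> omega
        rw [this, Set.ncard_pair]
        simp
        omega
      | bot => simp at hr
      | vert i => simp at hr
      | edge i => simp at hr
    | edge i => cases G <;> simp at hr
    | top => cases G <;> simp at hr

theorem noDigon : NoDigon Apg rk := by
  intro F G hFG hr
  cases F with
  | bot =>
    cases G with
    | top =>
      have : {H : Apg | bot ≤ H ∧ H ≤ top ∧ rk H = rk bot + 1} = Set.range vert := by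
        ext H
        simp only [Set.mem_ofPred_eq, Set.mem_range]
        cases H <;> simp
      rw [this]
      have hinf : (Set.range vert).Infinite :=
        Set.infinite_range_of_injective (fun i j h => by simpa using h)
      rw [hinf.ncard]
      norm_num
    | bot => simp at hr
    | vert i => simp at hr
    | edge i => simp at hr
  | vert i => cases G <;> simp at hr
  | edge i => cases G <;> simp at hr
  | top => cases G <;> simp at hr

/-- Translations of the apeirogon. -/
def tr (c : ℤ) : Apg ≃o Apg where
  toFun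
    | bot => bot
    | vert i => vert (i + c)
    | edge i => edge (i + c)
    | top => top
  invFun
    | bot => bot
    | vert i => vert (i - c)
    | edge i => edge (i - c)
    | top => top
  left_inv a := by cases a <;> simp
  right_inv a := by cases a <;> simp
  map_rel_iff' := by
    intro a b
    cases a <;> cases b <;> simp <;> omega

@[simp] theorem tr_vert (c i : ℤ) : tr c (vert i) = vert (i + c) := rfl
@[simp] theorem tr_edge (c i : ℤ) : tr c (edge i) = edge (i + c) := rfl

/-- The reflection of the apeirogon in the midpoint of the edge `0`. -/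
def rf : Apg ≃o Apg where
  toFun
    | bot => bot
    | vert i => vert (1 - i)
    | edge i => edge (-i)
    | top => top
  invFun
    | bot => bot
    | vert i => vert (1 - i)
    | edge i => edge (-i)
    | top => top
  left_inv a := by cases a <;> simp
  right_inv a := by cases a <;> simp
  map_rel_iff' := by
    intro a b
    cases a <;> cases b <;> simp <;> omega

@[simp] theorem rf_vert (i : ℤ) : rf (vert i) = vert (1 - i) := rfl
@[simp] theorem rf_edge (i : ℤ) : rf (edge i) = edge (-i) := rfl

theorem rf_symm : rf.symm = rf := rfl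

theorem tr_symm (c : ℤ) : (tr c).symm = tr (-c) := by
  ext a
  cases a <;> simp [tr, OrderIso.symm] <;> rfl

theorem tr_smul_fl (c m : ℤ) : tr c • fl m = fl (m + 2 * c) := by
  refine Flag.ext ((tr c • fl m).max_chain' (fl _).chain_le ?_)
  rintro _ ⟨F, hF, rfl⟩
  rcases hF with rfl | rfl | rfl | rfl
  · exact Or.inl rfl
  · right; left; change vert _ = vert _; congr 1; omega
  · right; right; left; change edge _ = edge _; congr 1; omega
  · right; right; right; rfl

theorem rf_smul_fl (m : ℤ) : rf • fl m = fl (3 - m) := by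
  refine Flag.ext ((rf • fl m).max_chain' (fl _).chain_le ?_)
  rintro _ ⟨F, hF, rfl⟩
  rcases hF with rfl | rfl | rfl | rfl
  · exact Or.inl rfl
  · right; left; change vert _ = vert _; congr 1; omega
  · right; right; left; change edge _ = edge _; congr 1; omega
  · right; right; right; rfl

end Apg

end Pool.Agent.Lib.MP_53fdf7_co
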