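import Pool.Agent.Lib.MP_53fdf7_co.Defs

section

set_option autoImplicit false

namespace Pool.Agent.Lib.MP_53fdf7_co

variable {n : ℕ} {P : Type} [PartialOrder P] {rk : P → ℤ}

namespace IsAbstractPolytope

theorem neg_one_le (h : IsAbstractPolytope n P rk) (F : P) : -1 ≤ rk F := by
  obtain ⟨b, hb, hb1⟩ := h.exists_least
  rw [← hb1]; exact h.strictMono.monotone (hb F)

theorem le_n (h : IsAbstractPolytope n P rk) (F : P) : rk F ≤ n := by
  obtain ⟨b, hb, hb1⟩ := h.exists_greatest
  rw [← hb1]; exact h.strictMono.monotone (hb F)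

/-- Between two faces there are faces of every intermediate rank. -/
theorem exists_between (h : IsAbstractPolytope n P rk) {F G : P} (hFG : F < G) {i : ℤ}
    (h1 : rk F < i) (h2 : i < rk G) : ∃ H, F < H ∧ H < G ∧ rk H = i := by
  obtain ⟨Φ, hF, hG⟩ := Flag.exists_mem_mem hFG.le
  obtain ⟨H, ⟨hH, hr⟩, -⟩ := h.flag_rank Φ i (by have := h.neg_one_le F; omega)
    (by have := h.le_n G; omega)
  refine ⟨H, ?_, ?_, hr⟩
  · rcases Φ.le_or_le hF hH with h3 | h3
    · refine lt_of_le_of_ne h3 ?_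
      rintro rfl; omega
    · have := h.strictMono.monotone h3; omega
  · rcases Φ.le_or_le hG hH with h3 | h3
    · have := h.strictMono.monotone h3; omega
    · refine lt_of_le_of_ne h3 ?_
      rintro rfl; omega

end IsAbstractPolytope

/-- In a flag, comparison is decided by rank. -/
theorem le_of_rk_le (hm : StrictMono rk) {Φ : Flag P} {F G : P} (hF : F ∈ Φ) (hG : G ∈ Φ)
    (h : rk F ≤ rk G) : F ≤ G := by
  rcases Φ.le_or_le hF hG with h3 | h3
  · exact h3
  · rcases h3.lt_or_eq with h4 | h4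
    · have := hm h4; omega
    · exact h4.ge

/-- A criterion for the flag-rank condition. -/
theorem flag_rank_of_between (hm : StrictMono rk) {b t : P} (hb : ∀ G, b ≤ G) (hb1 : rk b = -1)
    (ht : ∀ G, G ≤ t) (ht1 : rk t = n)
    (hbet : ∀ F G : P, F < G → rk F + 1 < rk G → ∃ H, F < H ∧ H < G)
    (Φ : Flag P) (i : ℤ) (hi : -1 ≤ i) (hin : i ≤ n) : ∃! F : P, F ∈ Φ ∧ rk F = i := by
  classical
  have hbΦ : b ∈ Φ := Flag.mem_iff_forall_le_or_ge.2 fun c _ => Or.inl (hb c)
  have htΦ : t ∈ Φ := Flag.mem_iff_forall_le_or_ge.2 fun c _ => Or.inr (ht c)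
  -- uniqueness
  have huniq : ∀ F G : P, F ∈ Φ → G ∈ Φ → rk F = rk G → F = G := fun F G hF hG h =>
    le_antisymm (le_of_rk_le hm hF hG h.le) (le_of_rk_le hm hG hF h.ge)
  -- existence, by taking the largest face of rank at most `i` and the least of rank at least `i`
  have hup : ∀ m : ℕ, ∀ j : ℤ, j + m = n → -1 ≤ j → ∃ F ∈ Φ, rk F = j := by
    intro m
    induction m with
    | zero => intro j hj _; exact ⟨t, htΦ, by rw [ht1]; push_cast at hj; omega⟩
    | succ m ih =>
      intro j hj hj1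
      obtain ⟨G, hG, hGr⟩ := ih (j + 1) (by push_cast at hj; omega) (by omega)
      -- the faces of `Φ` below `G`, of maximal rank
      have hne : ∃ r : ℤ, ∃ F ∈ Φ, F < G ∧ rk F = r := by
        refine ⟨-1, b, hbΦ, lt_of_le_of_ne (hb G) ?_, hb1⟩
        rintro rfl; omega
      obtain ⟨r, ⟨F, hF, hFG, hFr⟩, hmax⟩ := Int.exists_greatest_of_bdd
        (P := fun r : ℤ => ∃ F ∈ Φ, F < G ∧ rk F = r)
        ⟨j + 1, fun z ⟨F, _, hFG, hz⟩ => by have := hm hFG; omega⟩ hne
      by_cases hr : r = j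
      · exact ⟨F, hF, by omega⟩
      · exfalso
        have h1 := hm hFG
        obtain ⟨H, hFH, hHG⟩ := hbet F G hFG (by omega)
        have hHΦ : H ∈ Φ := by
          refine Flag.mem_iff_forall_le_or_ge.2 fun c hc => ?_
          rcases Φ.le_or_le hc hG with h3 | h3
          · rcases h3.lt_or_eq with h4 | h4
            · have h5 := hmax (rk c) ⟨c, hc, h4, rfl⟩
              right
              exact (le_of_rk_le hm hc hF (by omega)).trans hFH.le
            · left; rw [h4]; exact hHG.le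
          · left; exact hHG.le.trans h3
        have := hmax (rk H) ⟨H, hHΦ, hHG, rfl⟩
        have := hm hFH
        omega
  obtain ⟨F, hF, hFr⟩ := hup (n - i).toNat i (by omega) hi
  exact ⟨F, ⟨hF, hFr⟩, fun G ⟨hG, hGr⟩ => huniq G F hG hF (by omega)⟩

/-- Automorphisms do not lower the rank. -/
theorem rk_le_rk_apply (h : IsAbstractPolytope n P rk) {Q : Type} [PartialOrder Q] {m : ℕ}
    {rk' : Q → ℤ} (h' : IsAbstractPolytope m Q rk') (e : P ≃o Q) (F : P) : rk F ≤ rk' (e F) := by
  have : ∀ j : ℕ, ∀ F : P, rk F = j - 1 → rk F ≤ rk' (e F) := by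
    intro j
    induction j with
    | zero => intro F hF; have := h'.neg_one_le (e F); push_cast at hF; omega
    | succ j ih =>
      intro F hF
      obtain ⟨b, hb, hb1⟩ := h.exists_least
      have hbF : b < F := lt_of_le_of_ne (hb F) (by rintro rfl; push_cast at hF; omega)
      rcases Nat.eq_zero_or_pos j with rfl | hj
      · have h1 := h'.strictMono (e.strictMono hbF)
        have h2 := h'.neg_one_le (e b)
        push_cast at hF; omega
      · obtain ⟨H, -, hH2, hH3⟩ := h.exists_between hbF (i := j - 1) (by omega)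
          (by push_cast at hF; omega)
        have h1 := ih H hH3
        have h2 := h'.strictMono (e.strictMono hH2)
        push_cast at hF; omega
  exact this (rk F + 1).toNat F (by have := h.neg_one_le F; omega)

/-- Automorphisms preserve the rank. -/
theorem rk_apply (h : IsAbstractPolytope n P rk) (e : P ≃o P) (F : P) : rk (e F) = rk F := by
  have h1 := rk_le_rk_apply h h e F
  have h2 := rk_le_rk_apply h h e.symm (e F)
  simp at h2
  omega

theorem eq_of_rk_eq (h : IsAbstractPolytope n P rk) {Φ : Flag P} {F G : P} (hF : F ∈ Φ)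
    (hG : G ∈ Φ) (hr : rk F = rk G) : F = G :=
  le_antisymm (le_of_rk_le h.strictMono hF hG hr.le) (le_of_rk_le h.strictMono hG hF hr.ge)

end Pool.Agent.Lib.MP_53fdf7_co
end

section

set_option autoImplicit false

namespace Pool.Agent.Lib.MP_53fdf7_co

section Construction

variable {K : Type} [PartialOrder K] {G : Type} [Group G]

/-- The parabolic subgroup of a face `F`: generated by the `s v` for the vertices `v ≤ F`. -/
def Par (rk : K → ℤ) (s : K → G) (F : K) : Subgroup G :=
  Subgroup.closure {x | ∃ v, rk v = 0 ∧ v ≤ F ∧ s v = x}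

/-- The whole group generated by the `s v`. -/
def Tot (rk : K → ℤ) (s : K → G) : Subgroup G :=
  Subgroup.closure {x | ∃ v, rk v = 0 ∧ s v = x}

/-- The left coset `w * Par F` as a set. -/
def Cos (rk : K → ℤ) (s : K → G) (F : K) (w : G) : Set G := {x | w⁻¹ * x ∈ Par rk s F}

/-- The extended poset: pairs (face, left coset of its parabolic subgroup) and a least face. -/
def Ext (rk : K → ℤ) (s : K → G) : Type :=
  {p : K × Set G // (IsBot p.1 ∧ p.2 = ∅) ∨ ∃ w ∈ Tot rk s, p.2 = Cos rk s p.1 w}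

instance (rk : K → ℤ) (s : K → G) : PartialOrder (Ext rk s) :=
  inferInstanceAs (PartialOrder {p : K × Set G //
    (IsBot p.1 ∧ p.2 = ∅) ∨ ∃ w ∈ Tot rk s, p.2 = Cos rk s p.1 w})

variable {rk : K → ℤ} {s : K → G}

theorem ext_le_iff {p q : Ext rk s} : p ≤ q ↔ p.1.1 ≤ q.1.1 ∧ p.1.2 ⊆ q.1.2 := Iff.rfl

theorem mem_cos_self (F : K) (w : G) : w ∈ Cos rk s F w := by simp [Cos, one_mem]

theorem par_mono {F F' : K} (h : F ≤ F') : Par rk s F ≤ Par rk s F' := by
  refine Subgroup.closure_mono ?_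
  rintro x ⟨v, hv, hvF, rfl⟩
  exact ⟨v, hv, hvF.trans h, rfl⟩

theorem par_le_tot (F : K) : Par rk s F ≤ Tot rk s := by
  refine Subgroup.closure_mono ?_
  rintro x ⟨v, hv, hvF, rfl⟩
  exact ⟨v, hv, rfl⟩

theorem tot_le_par {t : K} (ht : ∀ F, F ≤ t) : Tot rk s ≤ Par rk s t := by
  refine Subgroup.closure_mono ?_
  rintro x ⟨v, hv, rfl⟩
  exact ⟨v, hv, ht v, rfl⟩

theorem cos_eq_of_mem {F : K} {w x : G} (h : w⁻¹ * x ∈ Par rk s F) :
    Cos rk s F w = Cos rk s F x := by
  ext y
  simp only [Cos, Set.mem_ofPred_eq]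
  constructor
  · intro hy
    have := mul_mem (inv_mem h) hy
    simpa [mul_assoc] using this
  · intro hy
    have := mul_mem h hy
    simpa [mul_assoc] using this

theorem cos_subset_iff {F F' : K} (hF : F ≤ F') {w x : G} :
    Cos rk s F w ⊆ Cos rk s F' x ↔ x⁻¹ * w ∈ Par rk s F' := by
  constructor
  · intro h
    exact h (mem_cos_self F w)
  · intro h
    rw [cos_eq_of_mem h]
    intro y hy
    exact par_mono hF hy

theorem cos_eq_iff {F : K} {w x : G} :
    Cos rk s F w = Cos rk s F x ↔ w⁻¹ * x ∈ Par rk s F := by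
  constructor
  · intro h
    have : x ∈ Cos rk s F w := by rw [h]; exact mem_cos_self F x
    exact this
  · exact cos_eq_of_mem

/-- The face `(F, w * Par F)`. -/
def face (rk : K → ℤ) (s : K → G) (F : K) (w : Tot rk s) : Ext rk s :=
  ⟨(F, Cos rk s F w), Or.inr ⟨w, w.2, rfl⟩⟩

/-- The least face. -/
def lst (rk : K → ℤ) (s : K → G) (b : K) (hb : IsBot b) : Ext rk s := ⟨(b, ∅), Or.inl ⟨hb, rfl⟩⟩

theorem ext_cases (b : K) (hb : IsBot b) (p : Ext rk s) :
    p = lst rk s b hb ∨ ∃ F w, p = face rk s F w := by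
  obtain ⟨⟨F, A⟩, h⟩ := p
  rcases h with ⟨h1, h2⟩ | ⟨w, hw, h2⟩
  · left
    simp only at h1 h2
    subst h2
    have : F = b := le_antisymm (h1 b) (hb F)
    subst this
    rfl
  · right
    simp only at h2
    subst h2
    exact ⟨F, ⟨w, hw⟩, rfl⟩

theorem face_le_face {F F' : K} {w w' : Tot rk s} :
    face rk s F w ≤ face rk s F' w' ↔ F ≤ F' ∧ (w : G)⁻¹ * w' ∈ Par rk s F' := by
  rw [ext_le_iff]
  constructor
  · rintro ⟨h1, h2⟩
    have h1' : F ≤ F' := h1
    have h2' : Cos rk s F w ⊆ Cos rk s F' w' := h2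
    refine ⟨h1, ?_⟩
    have := (cos_subset_iff h1').1 h2'
    have := inv_mem this
    simpa using this
  · rintro ⟨h1, h2⟩
    refine ⟨h1, (cos_subset_iff h1).2 ?_⟩
    have := inv_mem h2
    simpa using this

theorem face_eq_face {F F' : K} {w w' : Tot rk s} :
    face rk s F w = face rk s F' w' ↔ F = F' ∧ (w : G)⁻¹ * w' ∈ Par rk s F' := by
  constructor
  · intro h
    have h1 := (face_le_face.1 h.le)
    have h2 := (face_le_face.1 h.ge)
    exact ⟨le_antisymm h1.1 h2.1, h1.2⟩
  · rintro ⟨rfl, h⟩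
    apply Subtype.ext
    exact Prod.ext rfl (cos_eq_of_mem h)

theorem face_eq_face' {F F' : K} {w : Tot rk s} :
    face rk s F w = face rk s F' w ↔ F = F' := by
  rw [face_eq_face]; simp [one_mem]

theorem face_le_face' {F F' : K} {w : Tot rk s} :
    face rk s F w ≤ face rk s F' w ↔ F ≤ F' := by
  rw [face_le_face]; simp [one_mem]

theorem face_lt_face' {F F' : K} {w : Tot rk s} :
    face rk s F w < face rk s F' w ↔ F < F' := by
  rw [lt_iff_le_not_ge, lt_iff_le_not_ge, face_le_face', face_le_face']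

theorem lst_le {b : K} {hb : IsBot b} (p : Ext rk s) : lst rk s b hb ≤ p := by
  rw [ext_le_iff]
  exact ⟨hb _, Set.empty_subset _⟩

theorem lst_ne_face {b : K} {hb : IsBot b} (F : K) (w : Tot rk s) :
    lst rk s b hb ≠ face rk s F w := by
  intro h
  have h1 : (lst rk s b hb).1.2 = (face rk s F w).1.2 := by rw [h]
  have h2 : (w : G) ∈ (lst rk s b hb).1.2 := by
    rw [h1]
    change (w : G) ∈ Cos rk s F w
    exact mem_cos_self F (w : G)
  exact h2

theorem lst_lt_face {b : K} {hb : IsBot b} (F : K) (w : Tot rk s) :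
    lst rk s b hb < face rk s F w := lt_of_le_of_ne (lst_le _) (lst_ne_face F w)

theorem not_face_le_lst {b : K} {hb : IsBot b} (F : K) (w : Tot rk s) :
    ¬ face rk s F w ≤ lst rk s b hb := fun h => absurd (lst_lt_face F w) (not_lt_of_ge h)

/-- If `face F w ≤ p` then `p = face F' w` for some `F'`. -/
theorem exists_eq_face_of_le {b : K} (hb : IsBot b) {F : K} {w : Tot rk s} {p : Ext rk s}
    (h : face rk s F w ≤ p) : ∃ F', F ≤ F' ∧ p = face rk s F' w := by
  rcases ext_cases b hb p with rfl | ⟨F', w', rfl⟩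
  · exact absurd h (not_face_le_lst F w)
  · obtain ⟨h1, h2⟩ := face_le_face.1 h
    exact ⟨F', h1, (face_eq_face.2 ⟨rfl, h2⟩).symm⟩

open Classical in
/-- The rank function of the extended poset. -/
noncomputable def rkE (rk : K → ℤ) (s : K → G) (p : Ext rk s) : ℤ :=
  if p.1.2 = ∅ then -1 else rk p.1.1 + 1

theorem rkE_lst {b : K} {hb : IsBot b} : rkE rk s (lst rk s b hb) = -1 := by
  simp [rkE, lst]

theorem rkE_face (F : K) (w : Tot rk s) : rkE rk s (face rk s F w) = rk F + 1 := by
  have : Cos rk s F w ≠ ∅ := (Set.nonempty_of_mem (mem_cos_self F (w : G))).ne_empty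
  simp [rkE, face, this]

variable {n : ℕ}

theorem rkE_strictMono (hK : IsAbstractPolytope n K rk) : StrictMono (rkE rk s) := by
  obtain ⟨b, hb, hb1⟩ := hK.exists_least
  intro p q hpq
  rcases ext_cases b hb p with rfl | ⟨F, w, rfl⟩
  · rcases ext_cases b hb q with rfl | ⟨F', w', rfl⟩
    · exact absurd hpq (lt_irrefl _)
    · rw [rkE_lst, rkE_face]
      have := hK.neg_one_le F'
      omega
  · obtain ⟨F', hF, rfl⟩ := exists_eq_face_of_le hb hpq.le
    rw [rkE_face, rkE_face]
    have := hK.strictMono (face_lt_face'.1 hpq)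
    omega

theorem par_bot {b : K} (hb : IsBot b) (hb1 : rk b = -1) :
    Par rk s b = ⊥ := by
  rw [Par, Subgroup.closure_eq_bot_iff]
  rintro x ⟨v, hv, hvb, rfl⟩
  have : v = b := le_antisymm hvb (hb v)
  subst this
  omega

theorem face_bot_eq {b : K} (hb : IsBot b) (hb1 : rk b = -1)
    {w w' : Tot rk s} : face rk s b w = face rk s b w' ↔ w = w' := by
  rw [face_eq_face, par_bot hb hb1, Subgroup.mem_bot]
  simp only [true_and]
  rw [inv_mul_eq_one]
  exact ⟨fun h => Subtype.ext h, fun h => by rw [h]⟩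

theorem ext_between (hK : IsAbstractPolytope n K rk) (p q : Ext rk s) (hpq : p < q)
    (hr : rkE rk s p + 1 < rkE rk s q) : ∃ r, p < r ∧ r < q := by
  obtain ⟨b, hb, hb1⟩ := hK.exists_least
  rcases ext_cases b hb p with rfl | ⟨F, w, rfl⟩
  · rcases ext_cases b hb q with rfl | ⟨F', w', rfl⟩
    · exact absurd hpq (lt_irrefl _)
    · refine ⟨face rk s b w', lst_lt_face _ _, ?_⟩
      rw [face_lt_face']
      refine lt_of_le_of_ne (hb _) ?_
      rintro rfl
      rw [rkE_lst, rkE_face] at hr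
      omega
  · obtain ⟨F', hF, rfl⟩ := exists_eq_face_of_le hb hpq.le
    rw [rkE_face, rkE_face] at hr
    obtain ⟨H, h1, h2, -⟩ := hK.exists_between (face_lt_face'.1 hpq) (i := rk F + 1) (by omega)
      (by omega)
    exact ⟨face rk s H w, face_lt_face'.2 h1, face_lt_face'.2 h2⟩

/-- The flag of the extended poset given by a flag `φ` of `K` and a group element `w`. -/
def flg (b : K) (hb : IsBot b) (φ : Flag K) (w : Tot rk s) : Flag (Ext rk s) where
  carrier := {p | p = lst rk s b hb ∨ ∃ F ∈ φ, p = face rk s F w}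
  Chain' := by
    rintro p (rfl | ⟨F, hF, rfl⟩) q hq hne
    · left; exact lst_le q
    · rcases hq with rfl | ⟨F', hF', rfl⟩
      · right; exact lst_le _
      · rcases φ.le_or_le hF hF' with h | h
        · left; exact face_le_face'.2 h
        · right; exact face_le_face'.2 h
  max_chain' := by
    intro S hS hsub
    refine Set.Subset.antisymm hsub ?_
    intro p hp
    rcases ext_cases b hb p with rfl | ⟨F, w', rfl⟩
    · left; rfl
    · right
      have hbφ : b ∈ φ := Flag.mem_iff_forall_le_or_ge.2 fun c _ => Or.inl (hb c)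
      have h1 : face rk s b w ∈ S := hsub (Or.inr ⟨b, hbφ, rfl⟩)
      -- rewrite `face F w'` as `face F w`
      have key : face rk s F w' = face rk s F w := by
        rcases hS.total h1 hp with h | h
        · obtain ⟨F', -, h'⟩ := exists_eq_face_of_le hb h
          have : F = F' := (face_eq_face.1 h').1
          rw [this] at h' ⊢; exact h'
        · have h2 := face_le_face.1 h
          have hFb : F = b := le_antisymm h2.1 (hb F)
          subst hFb
          exact face_eq_face.2 ⟨rfl, h2.2⟩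
      rw [key] at hp ⊢
      refine ⟨F, ?_, rfl⟩
      refine Flag.mem_iff_forall_le_or_ge.2 fun c hc => ?_
      have h2 : face rk s c w ∈ S := hsub (Or.inr ⟨c, hc, rfl⟩)
      rcases hS.total hp h2 with h | h
      · left; exact face_le_face'.1 h
      · right; exact face_le_face'.1 h

theorem mem_flg {b : K} {hb : IsBot b} {φ : Flag K} {w : Tot rk s} {p : Ext rk s} :
    p ∈ flg b hb φ w ↔ p = lst rk s b hb ∨ ∃ F ∈ φ, p = face rk s F w := Iff.rfl

theorem face_mem_flg {b : K} {hb : IsBot b} {φ : Flag K} {w w' : Tot rk s} {F : K} :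
    face rk s F w' ∈ flg b hb φ w ↔ F ∈ φ ∧ (w : G)⁻¹ * w' ∈ Par rk s F := by
  rw [mem_flg]
  constructor
  · rintro (h | ⟨F', hF', h⟩)
    · exact absurd h.symm (lst_ne_face _ _)
    · obtain ⟨rfl, h2⟩ := face_eq_face.1 h.symm
      exact ⟨hF', h2⟩
  · rintro ⟨h1, h2⟩
    exact Or.inr ⟨F, h1, (face_eq_face.2 ⟨rfl, h2⟩).symm⟩

theorem lst_mem_flg {b : K} {hb : IsBot b} {φ : Flag K} {w : Tot rk s} :
    lst rk s b hb ∈ flg b hb φ w := Or.inl rfl

theorem exists_flg_eq (hK : IsAbstractPolytope n K rk) {b : K} (hb : IsBot b) (hb1 : rk b = -1)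
    (Φ : Flag (Ext rk s)) : ∃ φ w, Φ = flg b hb φ w := by
  obtain ⟨t, ht, ht1⟩ := hK.exists_greatest
  -- the rank-zero face of `Φ`
  have hbet := flag_rank_of_between (n := n + 1) (rkE_strictMono (s := s) hK)
    (b := lst rk s b hb) (t := face rk s t 1) lst_le rkE_lst
    (by
      intro p
      rcases ext_cases b hb p with rfl | ⟨F, w, rfl⟩
      · exact lst_le _
      · refine face_le_face.2 ⟨ht F, ?_⟩
        exact tot_le_par ht (mul_mem (inv_mem w.2) (OneMemClass.coe_one (Tot rk s) ▸ one_mem _)))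
    (by rw [rkE_face, ht1]; push_cast; ring)
    (ext_between hK) Φ
  obtain ⟨p, ⟨hpΦ, hp0⟩, -⟩ := hbet 0 (by norm_num) (by positivity)
  obtain ⟨w, rfl⟩ : ∃ w, p = face rk s b w := by
    rcases ext_cases b hb p with rfl | ⟨F, w, rfl⟩
    · rw [rkE_lst] at hp0; norm_num at hp0
    · rw [rkE_face] at hp0
      have : b = F := by
        rcases (hb F).lt_or_eq with h | h
        · have := hK.strictMono h; omega
        · exact h
      exact ⟨w, by rw [this]⟩
  have hup : ∀ q ∈ Φ, q = lst rk s b hb ∨ ∃ F, q = face rk s F w := by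
    intro q hq
    rcases ext_cases b hb q with rfl | ⟨F, w', rfl⟩
    · left; rfl
    · right
      rcases Φ.le_or_le hpΦ hq with h | h
      · obtain ⟨F', -, h'⟩ := exists_eq_face_of_le hb h
        exact ⟨F', h'⟩
      · have h2 := face_le_face.1 h
        have hFb : F = b := le_antisymm h2.1 (hb F)
        subst hFb
        exact ⟨F, face_eq_face.2 ⟨rfl, h2.2⟩⟩
  refine ⟨⟨{F | face rk s F w ∈ Φ}, ?_, ?_⟩, w, ?_⟩
  · intro F hF F' hF' _
    rcases Φ.le_or_le hF hF' with h | h
    · left; exact face_le_face'.1 h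
    · right; exact face_le_face'.1 h
  · intro S hS hsub
    refine Set.Subset.antisymm hsub ?_
    intro F hF
    refine Flag.mem_iff_forall_le_or_ge.2 fun c hc => ?_
    rcases hup c hc with rfl | ⟨F', rfl⟩
    · right; exact lst_le _
    · rcases hS.total hF (hsub hc) with h | h
      · left; exact face_le_face'.2 h
      · right; exact face_le_face'.2 h
  · apply Flag.ext
    ext q
    constructor
    · intro hq
      rcases hup q hq with rfl | ⟨F, rfl⟩
      · exact Or.inl rfl
      · exact Or.inr ⟨F, hq, rfl⟩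
    · rintro (rfl | ⟨F, hF, rfl⟩)
      · exact Flag.mem_iff_forall_le_or_ge.2 fun c _ => Or.inl (lst_le c)
      · exact hF

end Construction

end Pool.Agent.Lib.MP_53fdf7_co
end

section

set_option autoImplicit false

namespace Pool.Agent.Lib.MP_53fdf7_co

section Construction

variable {K : Type} [PartialOrder K] {G : Type} [Group G] {rk : K → ℤ} {s : K → G} {n : ℕ}

theorem flg_diff_same (b : K) (hb : IsBot b) (φ ψ : Flag K) (w : Tot rk s) :
    ((flg b hb φ w : Set (Ext rk s)) \ (flg b hb ψ w : Set (Ext rk s))) =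
      (fun F => face rk s F w) '' ((φ : Set K) \ (ψ : Set K)) := by
  ext p
  constructor
  · rintro ⟨h1 | ⟨F, hF, rfl⟩, h2⟩
    · exact absurd (Or.inl h1) h2
    · exact ⟨F, ⟨hF, fun h => h2 (Or.inr ⟨F, h, rfl⟩)⟩, rfl⟩
  · rintro ⟨F, ⟨h1, h2⟩, rfl⟩
    refine ⟨Or.inr ⟨F, h1, rfl⟩, ?_⟩
    rintro (h | ⟨F', hF', h⟩)
    · exact lst_ne_face _ _ h.symm
    · have := face_eq_face'.1 h
      subst this
      exact h2 hF'

theorem flagAdj_flg (b : K) (hb : IsBot b) {φ ψ : Flag K} (w : Tot rk s) (h : FlagAdj φ ψ) :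
    FlagAdj (flg b hb φ w) (flg b hb ψ w) := by
  have hinj : Function.Injective (fun F => face rk s F w) := fun F F' h => face_eq_face'.1 h
  constructor
  · rw [flg_diff_same, Set.ncard_image_of_injective _ hinj]; exact h.1
  · rw [flg_diff_same, Set.ncard_image_of_injective _ hinj]; exact h.2

/-- The generator attached to a vertex. -/
def gen (rk : K → ℤ) (s : K → G) (v : K) (hv : rk v = 0) : Tot rk s :=
  ⟨s v, Subgroup.subset_closure ⟨v, hv, rfl⟩⟩

theorem rank_pos_of_ne_bot (hK : IsAbstractPolytope n K rk) {b : K} (hb : IsBot b)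
    (hb1 : rk b = -1) {F : K} (hF : F ≠ b) : 0 ≤ rk F := by
  have := hK.strictMono (lt_of_le_of_ne (hb F) hF.symm)
  omega

theorem mem_of_isBot {b : K} (hb : IsBot b) (φ : Flag K) : b ∈ φ :=
  Flag.mem_iff_forall_le_or_ge.2 fun c _ => Or.inl (hb c)

theorem face_mul_gen (hK : IsAbstractPolytope n K rk) {b : K} (hb : IsBot b) (hb1 : rk b = -1)
    {φ : Flag K} {v : K} (hvφ : v ∈ φ) (hv : rk v = 0) (w : Tot rk s) {F : K} (hF : F ∈ φ)
    (hFb : F ≠ b) : face rk s F (w * gen rk s v hv) = face rk s F w := by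
  have h0 := rank_pos_of_ne_bot hK hb hb1 hFb
  have hvF : v ≤ F := le_of_rk_le hK.strictMono hvφ hF (by omega)
  have hmem : s v ∈ Par rk s F := Subgroup.subset_closure ⟨v, hv, hvF, rfl⟩
  refine (face_eq_face.2 ⟨rfl, ?_⟩).symm
  simpa [gen] using hmem

theorem flagAdj_mul_gen (hK : IsAbstractPolytope n K rk) {b : K} (hb : IsBot b) (hb1 : rk b = -1)
    (hs1 : ∀ v, rk v = 0 → s v ≠ 1)
    {φ : Flag K} {v : K} (hvφ : v ∈ φ) (hv : rk v = 0) (w : Tot rk s) :
    FlagAdj (flg b hb φ w) (flg b hb φ (w * gen rk s v hv)) := by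
  have hne : w ≠ w * gen rk s v hv := by
    intro h
    have h2 : (gen rk s v hv) = 1 := by
      have := left_eq_mul.1 h
      exact this
    exact hs1 v hv (congrArg Subtype.val h2)
  have key : ∀ u u' : Tot rk s, u ≠ u' → (∀ F ∈ φ, F ≠ b → face rk s F u = face rk s F u') →
      ((flg b hb φ u : Set (Ext rk s)) \ (flg b hb φ u' : Set (Ext rk s))) = {face rk s b u} := by
    intro u u' huu h
    ext p
    constructor
    · rintro ⟨h1 | ⟨F, hF, rfl⟩, h2⟩
      · exact absurd (Or.inl h1) h2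
      · by_cases hFb : F = b
        · subst hFb; rfl
        · exact absurd (Or.inr ⟨F, hF, h F hF hFb⟩) h2
    · rintro rfl
      refine ⟨Or.inr ⟨b, mem_of_isBot hb φ, rfl⟩, ?_⟩
      rintro (h | ⟨F', hF', h⟩)
      · exact lst_ne_face _ _ h.symm
      · obtain ⟨rfl, h3⟩ := face_eq_face.1 h
        exact huu ((face_bot_eq hb hb1).1 h)
  constructor
  · rw [key _ _ hne fun F hF hFb => (face_mul_gen hK hb hb1 hvφ hv w hF hFb).symm,
      Set.ncard_singleton]
  · rw [key _ _ hne.symm fun F hF hFb => (face_mul_gen hK hb hb1 hvφ hv w hF hFb),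
      Set.ncard_singleton]

/-- The relation used in the definition of strong flag-connectivity. -/
def Rel {P : Type} [PartialOrder P] (I : Set P) (A B : Flag P) : Prop :=
  FlagAdj A B ∧ I ⊆ A ∧ I ⊆ B

theorem path_same (hK : IsAbstractPolytope n K rk) (b : K) (hb : IsBot b) (φ ψ : Flag K)
    (w : Tot rk s) (I : Set (Ext rk s))
    (hI : ∀ p ∈ I, p = lst rk s b hb ∨ ∃ F, F ∈ φ ∧ F ∈ ψ ∧ p = face rk s F w) :
    Relation.ReflTransGen (Rel I) (flg b hb φ w) (flg b hb ψ w) := by
  have h := hK.strongly_flag_connected φ ψ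
  refine Relation.ReflTransGen.lift (fun χ => flg b hb χ w) ?_ _ _ h
  rintro A B ⟨h1, h2, h3⟩
  refine ⟨flagAdj_flg b hb w h1, ?_, ?_⟩
  · intro p hp
    rcases hI p hp with rfl | ⟨F, hF1, hF2, rfl⟩
    · exact Or.inl rfl
    · exact Or.inr ⟨F, h2 ⟨hF1, hF2⟩, rfl⟩
  · intro p hp
    rcases hI p hp with rfl | ⟨F, hF1, hF2, rfl⟩
    · exact Or.inl rfl
    · exact Or.inr ⟨F, h3 ⟨hF1, hF2⟩, rfl⟩

/-- The main connectivity step: multiplication by an element of `Par F0`. -/
theorem path_par (hK : IsAbstractPolytope n K rk) {b : K} (hb : IsBot b) (hb1 : rk b = -1)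
    (hs1 : ∀ v, rk v = 0 → s v ≠ 1) (hs2 : ∀ v, rk v = 0 → s v * s v = 1)
    (J : Set K) (hJ : IsChain (· ≤ ·) J) (F0 : K) (hF0 : ∀ F ∈ J, F0 ≤ F) (hbJ : b ∉ J)
    (y : G) (hy : y ∈ Par rk s F0) :
    ∀ (w : Tot rk s) (φ ψ : Flag K) (_ : J ⊆ φ) (_ : J ⊆ ψ) (w' : Tot rk s) (_ : (w' : G) = w * y)
      (I : Set (Ext rk s)) (_ : ∀ p ∈ I, p = lst rk s b hb ∨ ∃ F ∈ J, p = face rk s F w),
    Relation.ReflTransGen (Rel I) (flg b hb φ w) (flg b hb ψ w') := by
  induction hy using Subgroup.closure_induction_right with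
  | one =>
    intro w φ ψ hφ hψ w' hw' I hI
    have : w' = w := Subtype.ext (by simpa using hw')
    subst this
    refine path_same hK b hb φ ψ w' I fun p hp => ?_
    rcases hI p hp with h | ⟨F, hF, h⟩
    · exact Or.inl h
    · exact Or.inr ⟨F, hφ hF, hψ hF, h⟩
  | mul_right x hx y hy ih =>
    obtain ⟨v, hv, hvF, rfl⟩ := hy
    intro w φ ψ hφ hψ w' hw' I hI
    have hxT : x ∈ Tot rk s := par_le_tot F0 hx
    -- a flag of `K` containing `J` and `v`
    have hch : IsChain (· ≤ ·) (insert v J) := by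
      refine hJ.insert fun c hc _ => Or.inl (hvF.trans (hF0 c hc))
    obtain ⟨χ, hχ⟩ := hch.exists_subset_flag
    have hvχ : v ∈ χ := hχ (Set.mem_insert _ _)
    have hJχ : J ⊆ χ := (Set.subset_insert _ _).trans hχ
    set w1 : Tot rk s := w * ⟨x, hxT⟩ with hw1
    have hfaceJ : ∀ F ∈ J, face rk s F w = face rk s F w1 := by
      intro F hF
      refine face_eq_face.2 ⟨rfl, ?_⟩
      simpa [hw1] using par_mono (hF0 F hF) hx
    have p1 := ih w φ χ hφ hJχ w1 rfl I hI
    have hI1 : ∀ p ∈ I, p = lst rk s b hb ∨ ∃ F ∈ J, p = face rk s F w1 := by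
      intro p hp
      rcases hI p hp with h | ⟨F, hF, h⟩
      · exact Or.inl h
      · exact Or.inr ⟨F, hF, h.trans (hfaceJ F hF)⟩
    have hw'2 : w' = w1 * gen rk s v hv := Subtype.ext (by simp [hw', hw1, gen, mul_assoc])
    subst hw'2
    have hI2 : ∀ p ∈ I, p = lst rk s b hb ∨ ∃ F ∈ J, p = face rk s F (w1 * gen rk s v hv) := by
      intro p hp
      rcases hI1 p hp with h | ⟨F, hF, h⟩
      · exact Or.inl h
      · refine Or.inr ⟨F, hF, h.trans ?_⟩
        refine (face_mul_gen hK hb hb1 hvχ hv w1 (hJχ hF) ?_).symm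
        rintro rfl; exact hbJ hF
    have p2 : Rel I (flg b hb χ w1) (flg b hb χ (w1 * gen rk s v hv)) := by
      refine ⟨flagAdj_mul_gen hK hb hb1 hs1 hvχ hv w1, ?_, ?_⟩
      · intro p hp
        rcases hI1 p hp with rfl | ⟨F, hF, rfl⟩
        · exact Or.inl rfl
        · exact Or.inr ⟨F, hJχ hF, rfl⟩
      · intro p hp
        rcases hI2 p hp with rfl | ⟨F, hF, rfl⟩
        · exact Or.inl rfl
        · exact Or.inr ⟨F, hJχ hF, rfl⟩
    have p3 : Relation.ReflTransGen (Rel I) (flg b hb χ (w1 * gen rk s v hv))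
        (flg b hb ψ (w1 * gen rk s v hv)) := by
      refine path_same hK b hb χ ψ _ I fun p hp => ?_
      rcases hI2 p hp with h | ⟨F, hF, h⟩
      · exact Or.inl h
      · exact Or.inr ⟨F, hJχ hF, hψ hF, h⟩
    exact (p1.tail p2).trans p3
  | mul_inv_cancel x hx y hy ih =>
    obtain ⟨v, hv, hvF, rfl⟩ := hy
    have hinv : (s v)⁻¹ = s v := inv_eq_of_mul_eq_one_left (hs2 v hv)
    rw [hinv]
    intro w φ ψ hφ hψ w' hw' I hI
    have hxT : x ∈ Tot rk s := par_le_tot F0 hx
    -- a flag of `K` containing `J` and `v`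
    have hch : IsChain (· ≤ ·) (insert v J) := by
      refine hJ.insert fun c hc _ => Or.inl (hvF.trans (hF0 c hc))
    obtain ⟨χ, hχ⟩ := hch.exists_subset_flag
    have hvχ : v ∈ χ := hχ (Set.mem_insert _ _)
    have hJχ : J ⊆ χ := (Set.subset_insert _ _).trans hχ
    set w1 : Tot rk s := w * ⟨x, hxT⟩ with hw1
    have hfaceJ : ∀ F ∈ J, face rk s F w = face rk s F w1 := by
      intro F hF
      refine face_eq_face.2 ⟨rfl, ?_⟩
      simpa [hw1] using par_mono (hF0 F hF) hx
    have p1 := ih w φ χ hφ hJχ w1 rfl I hI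
    have hI1 : ∀ p ∈ I, p = lst rk s b hb ∨ ∃ F ∈ J, p = face rk s F w1 := by
      intro p hp
      rcases hI p hp with h | ⟨F, hF, h⟩
      · exact Or.inl h
      · exact Or.inr ⟨F, hF, h.trans (hfaceJ F hF)⟩
    have hw'2 : w' = w1 * gen rk s v hv := Subtype.ext (by simp [hw', hw1, gen, mul_assoc])
    subst hw'2
    have hI2 : ∀ p ∈ I, p = lst rk s b hb ∨ ∃ F ∈ J, p = face rk s F (w1 * gen rk s v hv) := by
      intro p hp
      rcases hI1 p hp with h | ⟨F, hF, h⟩
      · exact Or.inl h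
      · refine Or.inr ⟨F, hF, h.trans ?_⟩
        refine (face_mul_gen hK hb hb1 hvχ hv w1 (hJχ hF) ?_).symm
        rintro rfl; exact hbJ hF
    have p2 : Rel I (flg b hb χ w1) (flg b hb χ (w1 * gen rk s v hv)) := by
      refine ⟨flagAdj_mul_gen hK hb hb1 hs1 hvχ hv w1, ?_, ?_⟩
      · intro p hp
        rcases hI1 p hp with rfl | ⟨F, hF, rfl⟩
        · exact Or.inl rfl
        · exact Or.inr ⟨F, hJχ hF, rfl⟩
      · intro p hp
        rcases hI2 p hp with rfl | ⟨F, hF, rfl⟩
        · exact Or.inl rfl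
        · exact Or.inr ⟨F, hJχ hF, rfl⟩
    have p3 : Relation.ReflTransGen (Rel I) (flg b hb χ (w1 * gen rk s v hv))
        (flg b hb ψ (w1 * gen rk s v hv)) := by
      refine path_same hK b hb χ ψ _ I fun p hp => ?_
      rcases hI2 p hp with h | ⟨F, hF, h⟩
      · exact Or.inl h
      · exact Or.inr ⟨F, hJχ hF, hψ hF, h⟩
    exact (p1.tail p2).trans p3

theorem ext_connected (hK : IsAbstractPolytope n K rk)
    (hs1 : ∀ v, rk v = 0 → s v ≠ 1) (hs2 : ∀ v, rk v = 0 → s v * s v = 1)
    (Φ Ψ : Flag (Ext rk s)) :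
    Relation.ReflTransGen (Rel ((Φ : Set (Ext rk s)) ∩ Ψ)) Φ Ψ := by
  obtain ⟨b, hb, hb1⟩ := hK.exists_least
  obtain ⟨t, ht, ht1⟩ := hK.exists_greatest
  obtain ⟨φ, w, rfl⟩ := exists_flg_eq hK hb hb1 Φ
  obtain ⟨ψ, u, rfl⟩ := exists_flg_eq hK hb hb1 Ψ
  by_cases hwu : w = u
  · subst hwu
    refine path_same hK b hb φ ψ w _ fun p hp => ?_
    obtain ⟨h1, h2⟩ := hp
    rcases h1 with h1 | ⟨F, hF, rfl⟩
    · exact Or.inl h1
    · exact Or.inr ⟨F, hF, (face_mem_flg.1 h2).1, rfl⟩
  · -- shared faces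
    set J : Set K := {F | F ∈ φ ∧ F ∈ ψ ∧ (w : G)⁻¹ * u ∈ Par rk s F} with hJdef
    have htJ : t ∈ J := by
      refine ⟨Flag.mem_iff_forall_le_or_ge.2 fun c _ => Or.inr (ht c),
        Flag.mem_iff_forall_le_or_ge.2 fun c _ => Or.inr (ht c), ?_⟩
      exact tot_le_par ht (mul_mem (inv_mem w.2) u.2)
    have hbJ : b ∉ J := by
      rintro ⟨-, -, h⟩
      rw [par_bot hb hb1, Subgroup.mem_bot, inv_mul_eq_one] at h
      exact hwu (Subtype.ext h)
    have hJchain : IsChain (· ≤ ·) J := φ.chain_le.mono fun F hF => hF.1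
    -- the least element of `J`
    obtain ⟨r, ⟨F0, hF0J, hF0r⟩, hmin⟩ := Int.exists_least_of_bdd
      (P := fun r : ℤ => ∃ F ∈ J, rk F = r)
      ⟨-1, fun z ⟨F, _, hz⟩ => hz ▸ hK.neg_one_le F⟩ ⟨rk t, t, htJ, rfl⟩
    have hF0 : ∀ F ∈ J, F0 ≤ F := fun F hF =>
      le_of_rk_le hK.strictMono hF0J.1 hF.1 (by rw [hF0r]; exact hmin _ ⟨F, hF, rfl⟩)
    refine path_par hK hb hb1 hs1 hs2 J hJchain F0 hF0 hbJ ((w : G)⁻¹ * u) hF0J.2.2 w φ ψ
      (fun F hF => hF.1) (fun F hF => hF.2.1) u (by simp) _ ?_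
    rintro p ⟨h1 | ⟨F, hF, rfl⟩, h2⟩
    · exact Or.inl h1
    · right
      obtain ⟨h3, h4⟩ := face_mem_flg.1 h2
      refine ⟨F, ⟨hF, h3, ?_⟩, rfl⟩
      have := inv_mem h4
      simpa using this

theorem par_vertex (hK : IsAbstractPolytope n K rk) {v : K} (hv : rk v = 0)
    (hs2 : s v * s v = 1) {x : G} : x ∈ Par rk s v ↔ x = 1 ∨ x = s v := by
  constructor
  · intro hx
    have : Par rk s v ≤ Subgroup.zpowers (s v) := by
      rw [Par, Subgroup.closure_le]
      rintro y ⟨v', hv', hle, rfl⟩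
      have : v' = v := by
        rcases hle.lt_or_eq with h | h
        · have := hK.strictMono h; omega
        · exact h
      subst this
      exact Subgroup.mem_zpowers _
    obtain ⟨m, rfl⟩ := Subgroup.mem_zpowers_iff.1 (this hx)
    rcases Int.even_or_odd m with ⟨j, rfl⟩ | ⟨j, rfl⟩
    · left
      rw [← two_mul, zpow_mul, zpow_two, hs2, one_zpow]
    · right
      rw [zpow_add, zpow_mul, zpow_two, hs2, one_zpow, one_mul, zpow_one]
  · rintro (rfl | rfl)
    · exact one_mem _
    · exact Subgroup.subset_closure ⟨v, hv, le_rfl, rfl⟩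

theorem ext_diamond (hK : IsAbstractPolytope n K rk)
    (hs1 : ∀ v, rk v = 0 → s v ≠ 1) (hs2 : ∀ v, rk v = 0 → s v * s v = 1)
    (p q : Ext rk s) (hpq : p < q) (hr : rkE rk s q - rkE rk s p = 2) :
    {H : Ext rk s | p < H ∧ H < q}.ncard = 2 := by
  obtain ⟨b, hb, hb1⟩ := hK.exists_least
  rcases ext_cases b hb p with rfl | ⟨F, w, rfl⟩
  · rcases ext_cases b hb q with rfl | ⟨v, w, rfl⟩
    · exact absurd hpq (lt_irrefl _)
    · rw [rkE_lst, rkE_face] at hr
      have hv : rk v = 0 := by omega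
      have hset : {H : Ext rk s | lst rk s b hb < H ∧ H < face rk s v w} =
          {face rk s b w, face rk s b (w * gen rk s v hv)} := by
        ext H
        constructor
        · rintro ⟨h1, h2⟩
          rcases ext_cases b hb H with rfl | ⟨F, w', rfl⟩
          · exact absurd h1 (lt_irrefl _)
          · have hrk := rkE_strictMono hK h2
            rw [rkE_face, rkE_face] at hrk
            have hFb : F = b := by
              by_contra hne
              have := rank_pos_of_ne_bot hK hb hb1 hne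
              omega
            subst hFb
            obtain ⟨-, h4⟩ := face_le_face.1 h2.le
            rcases (par_vertex hK hv (hs2 v hv)).1 h4 with h5 | h5
            · left
              rw [inv_mul_eq_one] at h5
              rw [face_bot_eq hb hb1]; exact Subtype.ext h5
            · right
              rw [Set.mem_singleton_iff, face_bot_eq hb hb1]
              apply Subtype.ext
              have h6 : (w : G) = w' * s v := by rw [← h5]; group
              rw [Subgroup.coe_mul, h6]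
              simp [gen, mul_assoc, hs2 v hv]
        · rintro (rfl | rfl)
          · refine ⟨lst_lt_face _ _, face_lt_face'.2 ?_⟩
            refine lt_of_le_of_ne (hb _) ?_
            rintro rfl; omega
          · refine ⟨lst_lt_face _ _, ?_⟩
            have h3 : face rk s v w = face rk s v (w * gen rk s v hv) :=
              face_eq_face.2 ⟨rfl, by
                simpa [gen] using (par_vertex hK hv (hs2 v hv)).2 (Or.inr rfl)⟩
            rw [h3, face_lt_face']
            refine lt_of_le_of_ne (hb _) ?_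
            rintro rfl; omega
      rw [hset, Set.ncard_pair]
      intro h
      rw [face_bot_eq hb hb1] at h
      exact hs1 v hv (congrArg Subtype.val (left_eq_mul.1 h))
  · obtain ⟨F', hF, rfl⟩ := exists_eq_face_of_le hb hpq.le
    rw [rkE_face, rkE_face] at hr
    have hinj : Function.Injective (fun F => face rk s F w) := fun F F' h => face_eq_face'.1 h
    have hset : {H : Ext rk s | face rk s F w < H ∧ H < face rk s F' w} =
        (fun F => face rk s F w) '' {H | F < H ∧ H < F'} := by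
      ext H
      constructor
      · rintro ⟨h1, h2⟩
        obtain ⟨H', -, rfl⟩ := exists_eq_face_of_le hb h1.le
        exact ⟨H', ⟨face_lt_face'.1 h1, face_lt_face'.1 h2⟩, rfl⟩
      · rintro ⟨H', ⟨h1, h2⟩, rfl⟩
        exact ⟨face_lt_face'.2 h1, face_lt_face'.2 h2⟩
    rw [hset, Set.ncard_image_of_injective _ hinj]
    exact hK.diamond F F' (face_lt_face'.1 hpq) (by omega)

theorem ext_isAbstractPolytope (hK : IsAbstractPolytope n K rk)
    (hs1 : ∀ v, rk v = 0 → s v ≠ 1) (hs2 : ∀ v, rk v = 0 → s v * s v = 1) :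
    IsAbstractPolytope (n + 1) (Ext rk s) (rkE rk s) := by
  obtain ⟨b, hb, hb1⟩ := hK.exists_least
  obtain ⟨t, ht, ht1⟩ := hK.exists_greatest
  have htop : ∀ p : Ext rk s, p ≤ face rk s t 1 := by
    intro p
    rcases ext_cases b hb p with rfl | ⟨F, w, rfl⟩
    · exact lst_le _
    · refine face_le_face.2 ⟨ht F, ?_⟩
      exact tot_le_par ht (mul_mem (inv_mem w.2) (OneMemClass.coe_one (Tot rk s) ▸ one_mem _))
  have htr : rkE rk s (face rk s t 1) = ((n + 1 : ℕ) : ℤ) := by
    rw [rkE_face, ht1]; push_cast; ring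
  exact {
    strictMono := rkE_strictMono hK
    exists_least := ⟨lst rk s b hb, fun p => lst_le p, rkE_lst⟩
    exists_greatest := ⟨face rk s t 1, htop, htr⟩
    flag_rank := flag_rank_of_between (rkE_strictMono hK) (b := lst rk s b hb) lst_le rkE_lst
      htop htr (ext_between hK)
    strongly_flag_connected := fun Φ Ψ => ext_connected hK hs1 hs2 Φ Ψ
    diamond := ext_diamond hK hs1 hs2 }

end Construction

end Pool.Agent.Lib.MP_53fdf7_co
end

section

set_option autoImplicit false

namespace Pool.Agent.Lib.MP_53fdf7_co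

section Construction

variable {K : Type} [PartialOrder K] {G : Type} [Group G] {rk : K → ℤ} {s : K → G} {n : ℕ}

/-- Compatibility of an automorphism of `K` with a permutation of the group. -/
def Compat (rk : K → ℤ) (s : K → G) (α : K ≃o K) (e : G ≃ G) : Prop :=
  ∀ F : K, ∀ w ∈ Tot rk s, e w ∈ Tot rk s ∧ e '' Cos rk s F w = Cos rk s (α F) (e w)

/-- The induced map of the extended poset. -/
def mapFun (α : K ≃o K) (e : G ≃ G) (h : Compat rk s α e) (p : Ext rk s) : Ext rk s :=
  ⟨(α p.1.1, e '' p.1.2), by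
    rcases p.2 with ⟨h1, h2⟩ | ⟨w, hw, h2⟩
    · left
      refine ⟨fun x => ?_, by rw [h2]; simp⟩
      exact α.le_symm_apply.1 (h1 (α.symm x))
    · right
      refine ⟨e w, (h p.1.1 w hw).1, ?_⟩
      rw [h2]; exact (h p.1.1 w hw).2⟩

/-- The induced automorphism of the extended poset. -/
def isoOf (α : K ≃o K) (e : G ≃ G) (h : Compat rk s α e) (h' : Compat rk s α.symm e.symm) :
    Ext rk s ≃o Ext rk s where
  toFun := mapFun α e h
  invFun := mapFun α.symm e.symm h'
  left_inv := by
    intro p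
    apply Subtype.ext
    refine Prod.ext ?_ ?_
    · simp [mapFun]
    · simp [mapFun]
  right_inv := by
    intro p
    apply Subtype.ext
    refine Prod.ext ?_ ?_
    · simp [mapFun]
    · simp [mapFun]
  map_rel_iff' := by
    intro p q
    change (mapFun α e h p) ≤ (mapFun α e h q) ↔ p ≤ q
    rw [ext_le_iff, ext_le_iff]
    simp [mapFun]

theorem isoOf_face (α : K ≃o K) (e : G ≃ G) (h : Compat rk s α e)
    (h' : Compat rk s α.symm e.symm) (F : K) (w : Tot rk s) :
    isoOf α e h h' (face rk s F w) = face rk s (α F) ⟨e w, (h F w w.2).1⟩ := by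
  apply Subtype.ext
  exact Prod.ext rfl (h F w w.2).2

theorem isoOf_lst (α : K ≃o K) (e : G ≃ G) (h : Compat rk s α e)
    (h' : Compat rk s α.symm e.symm) {b : K} {hb : IsBot b} :
    isoOf α e h h' (lst rk s b hb) = lst rk s b hb := by
  apply le_antisymm _ (lst_le _)
  rw [← OrderIso.le_symm_apply]
  exact lst_le _

theorem isoOf_smul_flg (α : K ≃o K) (e : G ≃ G) (h : Compat rk s α e)
    (h' : Compat rk s α.symm e.symm) {b : K} {hb : IsBot b} (φ : Flag K) (w w' : Tot rk s)
    (hw : e w = w') :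
    isoOf α e h h' • flg b hb φ w = flg b hb (α • φ) w' := by
  apply Flag.ext
  rw [Flag.coe_smul]
  ext q
  constructor
  · rintro ⟨p, hp | ⟨F, hF, hp⟩, rfl⟩
    · left
      simp only [hp]
      exact isoOf_lst α e h h'
    · right
      simp only [hp]
      refine ⟨α F, ⟨F, hF, rfl⟩, ?_⟩
      refine (isoOf_face α e h h' F w).trans ?_
      congr 1
      exact Subtype.ext hw
  · rintro (rfl | ⟨F', ⟨F, hF, rfl⟩, rfl⟩)
    · exact ⟨lst rk s b hb, Or.inl rfl, isoOf_lst α e h h'⟩
    · refine ⟨face rk s F w, Or.inr ⟨F, hF, rfl⟩, ?_⟩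
      refine (isoOf_face α e h h' F w).trans ?_
      change face rk s (α F) _ = face rk s (α F) _
      congr 1
      exact Subtype.ext hw

/-- Left multiplications are compatible with the identity. -/
theorem compat_mulLeft (x : G) (hx : x ∈ Tot rk s) :
    Compat rk s (OrderIso.refl K) (Equiv.mulLeft x) := by
  intro F w hw
  refine ⟨mul_mem hx hw, ?_⟩
  ext y
  simp only [Cos, Equiv.coe_mulLeft, Set.image_mul_left, Set.mem_preimage, Set.mem_ofPred_eq,
    OrderIso.refl_apply]
  simp [mul_assoc]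

/-- A group automorphism inducing an automorphism of `K` on generators is compatible. -/
theorem compat_of_mulEquiv (hK : IsAbstractPolytope n K rk) (α : K ≃o K) (β : G ≃* G)
    (hβ : ∀ v, rk v = 0 → β (s v) = s (α v)) : Compat rk s α β.toEquiv := by
  have hpar : ∀ F, (Par rk s F).map β.toMonoidHom = Par rk s (α F) := by
    intro F
    rw [Par, MonoidHom.map_closure, Par]
    congr 1
    ext y
    constructor
    · rintro ⟨_, ⟨v, hv, hvF, rfl⟩, rfl⟩
      exact ⟨α v, by rw [rk_apply hK, hv], α.le_iff_le.2 hvF, (hβ v hv).symm⟩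
    · rintro ⟨v, hv, hvF, rfl⟩
      refine ⟨s (α.symm v), ⟨α.symm v, by rw [rk_apply hK, hv], ?_, rfl⟩, ?_⟩
      · rw [← α.le_iff_le]; simpa using hvF
      · have := hβ (α.symm v) (by rw [rk_apply hK, hv])
        simpa using this
  have htot : (Tot rk s).map β.toMonoidHom ≤ Tot rk s := by
    rw [Tot, MonoidHom.map_closure]
    refine Subgroup.closure_mono ?_
    rintro y ⟨_, ⟨v, hv, rfl⟩, rfl⟩
    exact ⟨α v, by rw [rk_apply hK, hv], (hβ v hv).symm⟩
  intro F w hw
  refine ⟨htot ⟨w, hw, rfl⟩, ?_⟩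
  ext y
  constructor
  · rintro ⟨x, hx, rfl⟩
    change (β w)⁻¹ * β x ∈ Par rk s (α F)
    rw [← hpar]
    exact ⟨w⁻¹ * x, hx, by simp⟩
  · intro hy
    change (β w)⁻¹ * y ∈ Par rk s (α F) at hy
    rw [← hpar] at hy
    obtain ⟨x, hx, hxy⟩ := hy
    refine ⟨w * x, ?_, ?_⟩
    · change w⁻¹ * (w * x) ∈ Par rk s F
      simpa using hx
    · change β (w * x) = y
      have : β x = (β w)⁻¹ * y := hxy
      rw [map_mul, this]; simp

/-- Every flag is in the orbit of a flag at the base vertex. -/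
theorem smul_flg_one {b : K} {hb : IsBot b} (φ : Flag K) (w : Tot rk s) :
    ∃ γ : Ext rk s ≃o Ext rk s, γ • flg b hb φ 1 = flg b hb φ w := by
  refine ⟨isoOf (OrderIso.refl K) (Equiv.mulLeft (w : G)) (compat_mulLeft _ w.2) ?_, ?_⟩
  · have := compat_mulLeft (rk := rk) (s := s) ((w : G)⁻¹) (inv_mem w.2)
    exact this
  · rw [isoOf_smul_flg (hb := hb) _ _ _ _ φ 1 w (by simp)]
    congr 1
    apply Flag.ext
    rw [Flag.coe_smul]
    exact Set.image_id _

/-- An automorphism of the extended poset fixing the base vertex restricts to an automorphism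
of `K`. -/
theorem exists_restrict {b : K} (hb : IsBot b) (γ : Ext rk s ≃o Ext rk s)
    (hγ : γ (face rk s b 1) = face rk s b 1) :
    ∃ α : K ≃o K, ∀ F, γ (face rk s F 1) = face rk s (α F) 1 := by
  have h1 : ∀ F, ∃ F', γ (face rk s F 1) = face rk s F' 1 := by
    intro F
    have : face rk s b 1 ≤ γ (face rk s F 1) := by
      rw [← hγ, γ.le_iff_le, face_le_face']; exact hb F
    obtain ⟨F', -, h⟩ := exists_eq_face_of_le hb this
    exact ⟨F', h⟩
  have hγ' : γ.symm (face rk s b 1) = face rk s b 1 := by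
    rw [OrderIso.symm_apply_eq, hγ]
  have h2 : ∀ F, ∃ F', γ.symm (face rk s F 1) = face rk s F' 1 := by
    intro F
    have : face rk s b 1 ≤ γ.symm (face rk s F 1) := by
      rw [← hγ', γ.symm.le_iff_le, face_le_face']; exact hb F
    obtain ⟨F', -, h⟩ := exists_eq_face_of_le hb this
    exact ⟨F', h⟩
  choose f hf using h1
  choose g hg using h2
  refine ⟨⟨⟨f, g, ?_, ?_⟩, ?_⟩, hf⟩
  · intro F
    have : face rk s (g (f F)) 1 = face rk s F 1 := by
      rw [← hg, ← hf]; simp
    exact face_eq_face'.1 this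
  · intro F
    have : face rk s (f (g F)) 1 = face rk s F 1 := by
      rw [← hf, ← hg]; simp
    exact face_eq_face'.1 this
  · intro F F'
    change f F ≤ f F' ↔ F ≤ F'
    rw [← face_le_face' (rk := rk) (s := s) (w := 1), ← hf, ← hf, γ.le_iff_le, face_le_face']

/-- The rank-zero face of a flag. -/
theorem base_of_smul_eq (hK : IsAbstractPolytope n K rk)
    (hs1 : ∀ v, rk v = 0 → s v ≠ 1) (hs2 : ∀ v, rk v = 0 → s v * s v = 1)
    {b : K} (hb : IsBot b) (hb1 : rk b = -1)
    (γ : Ext rk s ≃o Ext rk s) (φ ψ : Flag K)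
    (h : γ • flg (rk := rk) (s := s) b hb φ 1 = flg b hb ψ 1) :
    γ (face rk s b 1) = face rk s b 1 := by
  have hE := ext_isAbstractPolytope hK hs1 hs2
  have h1 : γ (face rk s b 1) ∈ flg b hb ψ 1 := by
    rw [← h]
    exact ⟨face rk s b 1, Or.inr ⟨b, mem_of_isBot hb φ, rfl⟩, rfl⟩
  have h2 : face rk s b 1 ∈ flg b hb ψ 1 := Or.inr ⟨b, mem_of_isBot hb ψ, rfl⟩
  exact eq_of_rk_eq hE h1 h2 (rk_apply hE γ _)

/-- The restriction maps flags correctly. -/
theorem restrict_flag {b : K} (hb : IsBot b) (γ : Ext rk s ≃o Ext rk s) (α : K ≃o K)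
    (hα : ∀ F, γ (face rk s F 1) = face rk s (α F) 1) (φ ψ : Flag K)
    (h : γ • flg (rk := rk) (s := s) b hb φ 1 = flg b hb ψ 1) : α • φ = ψ := by
  have hsub : ∀ F ∈ φ, α F ∈ ψ := by
    intro F hF
    have h1 : γ (face rk s F 1) ∈ flg b hb ψ 1 := by
      rw [← h]
      exact ⟨face rk s F 1, Or.inr ⟨F, hF, rfl⟩, rfl⟩
    rw [hα] at h1
    exact (face_mem_flg.1 h1).1
  have hsub2 : ((α • φ : Flag K) : Set K) ⊆ ψ := by
    rintro _ ⟨F, hF, rfl⟩
    exact hsub F hF
  exact Flag.ext ((α • φ).max_chain' ψ.chain_le hsub2)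

end Construction

section Pow

variable {K : Type} [PartialOrder K] {rk : K → ℤ} {n : ℕ}

open Classical in
/-- The generators of the elementary abelian group used for `2^K`. -/
noncomputable def sPow (v : K) : K → ℤˣ := Pi.mulSingle v (-1)

omit [PartialOrder K] in
theorem sPow_ne_one (v : K) : sPow v ≠ 1 := by
  classical
  intro h
  have := congrFun h v
  simp [sPow] at this

omit [PartialOrder K] in
theorem sPow_mul_self (v : K) : sPow v * sPow v = 1 := by
  classical
  rw [sPow, ← Pi.mulSingle_mul]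
  simp

omit [PartialOrder K] in
theorem sPow_injective : Function.Injective (sPow : K → K → ℤˣ) := by
  classical
  intro v w h
  by_contra hne
  have := congrFun h v
  simp [sPow, Pi.mulSingle_eq_of_ne hne] at this

/-- The permutation of coordinates induced by an automorphism of `K`. -/
def permPow (α : K ≃o K) : (K → ℤˣ) ≃* (K → ℤˣ) where
  toFun g := fun x => g (α.symm x)
  invFun g := fun x => g (α x)
  left_inv g := by ext x; simp
  right_inv g := by ext x; simp
  map_mul' g h := rfl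

theorem permPow_sPow (α : K ≃o K) (v : K) : permPow α (sPow v) = sPow (α v) := by
  classical
  ext x
  by_cases h : x = α v
  · subst h
    simp [permPow, sPow]
  · have h' : α.symm x ≠ v := by
      rintro rfl; exact h (by simp)
    simp [permPow, sPow, Pi.mulSingle_eq_of_ne h, Pi.mulSingle_eq_of_ne h']

theorem card_orbits_pow (hK : IsAbstractPolytope n K rk) :
    Nat.card (MulAction.orbitRel.Quotient (Ext rk (sPow (K := K)) ≃o Ext rk (sPow (K := K)))
        (Flag (Ext rk (sPow (K := K))))) =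
      Nat.card (MulAction.orbitRel.Quotient (K ≃o K) (Flag K)) := by
  obtain ⟨b, hb, hb1⟩ := hK.exists_least
  symm
  refine Nat.card_congr (Equiv.ofBijective
    (Quotient.lift (fun φ : Flag K => (Quotient.mk _ (flg (rk := rk) (s := sPow) b hb φ 1) :
      MulAction.orbitRel.Quotient (Ext rk (sPow (K := K)) ≃o Ext rk (sPow (K := K)))
        (Flag (Ext rk (sPow (K := K)))))) ?_) ⟨?_, ?_⟩)
  · rintro φ ψ ⟨α, hα⟩
    apply Quotient.sound
    have hα' : α • ψ = φ := hα
    have hc := compat_of_mulEquiv (s := sPow) hK α (permPow α) fun v _ => permPow_sPow α v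
    have hc' : Compat rk sPow α.symm (permPow α).toEquiv.symm :=
      compat_of_mulEquiv (s := sPow) hK α.symm (permPow α).symm fun v _ => by
        rw [MulEquiv.symm_apply_eq, permPow_sPow]; simp
    refine ⟨isoOf α (permPow α).toEquiv hc hc', ?_⟩
    change isoOf α (permPow α).toEquiv hc hc' • flg b hb ψ 1 = flg b hb φ 1
    rw [isoOf_smul_flg (hb := hb) α _ hc hc' ψ 1 1 (by simp), hα']
  · intro x y
    induction x using Quotient.inductionOn with
    | h φ =>
    induction y using Quotient.inductionOn with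
    | h ψ =>
    intro h
    obtain ⟨γ, hγ⟩ := Quotient.exact h
    have hγ' : γ • flg b hb ψ 1 = flg b hb φ 1 := hγ
    have hbase := base_of_smul_eq hK (fun v _ => sPow_ne_one v) (fun v _ => sPow_mul_self v)
      hb hb1 γ ψ φ hγ'
    obtain ⟨α, hα⟩ := exists_restrict hb γ hbase
    apply Quotient.sound
    exact ⟨α, restrict_flag hb γ α hα ψ φ hγ'⟩
  · intro y
    induction y using Quotient.inductionOn with
    | h Φ =>
    obtain ⟨φ, w, rfl⟩ := exists_flg_eq hK hb hb1 Φ
    refine ⟨Quotient.mk _ φ, ?_⟩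
    apply Quotient.sound
    obtain ⟨γ, hγ⟩ := smul_flg_one (hb := hb) φ w
    refine ⟨γ⁻¹, ?_⟩
    change γ⁻¹ • flg b hb φ w = flg b hb φ 1
    rw [← hγ, inv_smul_smul]

end Pow

section Digon

variable {K : Type} [PartialOrder K] {G : Type} [Group G] {rk : K → ℤ} {s : K → G} {n : ℕ}

theorem ext_noDigon (hK : IsAbstractPolytope n K rk) (hd : NoDigon K rk)
    (hs1 : ∀ v, rk v = 0 → s v ≠ 1)
    (hs3 : ∀ F, rk F = 1 → ∃ v v', rk v = 0 ∧ rk v' = 0 ∧ v ≤ F ∧ v' ≤ F ∧ s v ≠ s v') :
    NoDigon (Ext rk s) (rkE rk s) := by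
  obtain ⟨b, hb, hb1⟩ := hK.exists_least
  intro p q hpq hr
  rcases ext_cases b hb p with rfl | ⟨F, w, rfl⟩
  · rcases ext_cases b hb q with rfl | ⟨F, w, rfl⟩
    · omega
    · rw [rkE_lst, rkE_face] at hr
      obtain ⟨v, v', hv, hv', hvF, hvF', hne⟩ := hs3 F (by omega)
      intro hcard
      have hfin := Set.finite_of_ncard_ne_zero (by rw [hcard]; norm_num)
      have hsub : ({face rk s b w, face rk s b (w * gen rk s v hv),
          face rk s b (w * gen rk s v' hv')} : Set (Ext rk s)) ⊆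
          {H | lst rk s b hb ≤ H ∧ H ≤ face rk s F w ∧
            rkE rk s H = rkE rk s (lst rk s b hb) + 1} := by
        have hm : ∀ (u : K) (hu : rk u = 0), u ≤ F →
            face rk s b (w * gen rk s u hu) ≤ face rk s F w := by
          intro u hu huF
          have : face rk s F w = face rk s F (w * gen rk s u hu) := by
            refine face_eq_face.2 ⟨rfl, ?_⟩
            have hmem : s u ∈ Par rk s F := Subgroup.subset_closure ⟨u, hu, huF, rfl⟩
            simpa [gen] using hmem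
          rw [this, face_le_face']; exact hb F
        rintro H (rfl | rfl | rfl)
        · refine ⟨lst_le _, face_le_face'.2 (hb F), ?_⟩
          rw [rkE_lst, rkE_face]; omega
        · refine ⟨lst_le _, hm v hv hvF, ?_⟩
          rw [rkE_lst, rkE_face]; omega
        · refine ⟨lst_le _, hm v' hv' hvF', ?_⟩
          rw [rkE_lst, rkE_face]; omega
      have h3 : ({face rk s b w, face rk s b (w * gen rk s v hv),
          face rk s b (w * gen rk s v' hv')} : Set (Ext rk s)).ncard = 3 := by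
        rw [Set.ncard_eq_three]
        refine ⟨_, _, _, ?_, ?_, ?_, rfl⟩
        · intro h
          rw [face_bot_eq hb hb1] at h
          exact hs1 v hv (congrArg Subtype.val (left_eq_mul.1 h))
        · intro h
          rw [face_bot_eq hb hb1] at h
          exact hs1 v' hv' (congrArg Subtype.val (left_eq_mul.1 h))
        · intro h
          rw [face_bot_eq hb hb1] at h
          exact hne (congrArg Subtype.val (mul_left_cancel h))
      have := Set.ncard_le_ncard hsub hfin
      omega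
  · obtain ⟨F', hF, rfl⟩ := exists_eq_face_of_le hb hpq
    rw [rkE_face, rkE_face] at hr
    have hinj : Function.Injective (fun F => face rk s F w) := fun F F' h => face_eq_face'.1 h
    have hset : {H : Ext rk s | face rk s F w ≤ H ∧ H ≤ face rk s F' w ∧
        rkE rk s H = rkE rk s (face rk s F w) + 1} =
        (fun F => face rk s F w) '' {H | F ≤ H ∧ H ≤ F' ∧ rk H = rk F + 1} := by
      ext H
      constructor
      · rintro ⟨h1, h2, h3⟩
        obtain ⟨H', -, rfl⟩ := exists_eq_face_of_le hb h1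
        rw [rkE_face, rkE_face] at h3
        exact ⟨H', ⟨face_le_face'.1 h1, face_le_face'.1 h2, by omega⟩, rfl⟩
      · rintro ⟨H', ⟨h1, h2, h3⟩, rfl⟩
        refine ⟨face_le_face'.2 h1, face_le_face'.2 h2, ?_⟩
        rw [rkE_face, rkE_face, h3]
    rw [hset, Set.ncard_image_of_injective _ hinj]
    exact hd F F' hF (by omega)

end Digon

/-- The inductive step: from an `n`-polytope with `k` flag orbits and without digons one gets an
`(n+1)`-polytope with `k` flag orbits and without digons. -/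
theorem step {n k : ℕ} {K : Type} [PartialOrder K] {rk : K → ℤ}
    (hK : IsAbstractPolytope n K rk) (hk : IsKOrbit k K) (hd : NoDigon K rk) :
    IsAbstractPolytope (n + 1) (Ext rk (sPow (K := K))) (rkE rk sPow) ∧
      IsKOrbit k (Ext rk (sPow (K := K))) ∧ NoDigon (Ext rk (sPow (K := K))) (rkE rk sPow) := by
  refine ⟨ext_isAbstractPolytope hK (fun v _ => sPow_ne_one v) (fun v _ => sPow_mul_self v),
    ?_, ext_noDigon hK hd (fun v _ => sPow_ne_one v) ?_⟩
  · rw [IsKOrbit, card_orbits_pow hK]; exact hk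
  · intro F hF
    obtain ⟨b, hb, hb1⟩ := hK.exists_least
    have hbF : b < F := lt_of_le_of_ne (hb F) (by rintro rfl; omega)
    have h2 := hK.diamond b F hbF (by omega)
    obtain ⟨v, v', hne, hset⟩ := Set.ncard_eq_two.1 h2
    have hv : v ∈ {H | b < H ∧ H < F} := by rw [hset]; simp
    have hv' : v' ∈ {H | b < H ∧ H < F} := by rw [hset]; simp
    have r1 := hK.strictMono hv.1
    have r2 := hK.strictMono hv.2
    have r3 := hK.strictMono hv'.1
    have r4 := hK.strictMono hv'.2
    exact ⟨v, v', by omega, by omega, hv.2.le, hv'.2.le, fun h => hne (sPow_injective h)⟩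

end Pool.Agent.Lib.MP_53fdf7_co
end
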