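import Pool.Agent.Lib.MP_53fdf7_co.Apg

set_option autoImplicit false

namespace Pool.Agent.Lib.MP_53fdf7_co

open Equiv

/-- The ambient group of the base polyhedron. -/
abbrev GB : Type := ℤ → Perm (Fin 4)

/-- The generators of the base polyhedron: the generators of the edge `i` generate a dihedral
group of order `12` if `k ∣ i` and a Klein four-group otherwise. -/
def sB (k : ℕ) : Apg → GB
  | Apg.vert i => fun x => if x = i then swap 0 1 else
      if x = i - 1 then (if (k : ℤ) ∣ x then swap 1 2 else swap 2 3) else 1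
  | _ => 1

theorem sB_vert (k : ℕ) (i x : ℤ) : sB k (Apg.vert i) x = if x = i then swap 0 1 else
      if x = i - 1 then (if (k : ℤ) ∣ x then swap 1 2 else swap 2 3) else 1 := rfl

theorem sB_self (k : ℕ) (i : ℤ) : sB k (Apg.vert i) i = swap 0 1 := by simp [sB_vert]

theorem sB_succ (k : ℕ) (i : ℤ) : sB k (Apg.vert (i + 1)) i =
    if (k : ℤ) ∣ i then swap 1 2 else swap 2 3 := by simp [sB_vert]

theorem p1 : (swap 0 1 : Perm (Fin 4)) ≠ 1 := by decide

theorem p2 : (swap 0 1 : Perm (Fin 4)) * swap 1 2 ≠ swap 1 2 * swap 0 1 := by decide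

theorem p3 : (swap 0 1 : Perm (Fin 4)) * swap 2 3 = swap 2 3 * swap 0 1 := by decide

theorem p4 : (swap 0 1 : Perm (Fin 4)) ≠ swap 1 2 := by decide

theorem p5 : (swap 0 1 : Perm (Fin 4)) ≠ swap 2 3 := by decide

theorem p6 : (swap 0 2 : Perm (Fin 4)) * swap 0 1 * swap 0 2 = swap 1 2 := by decide

theorem p7 : (swap 0 2 * swap 1 3 : Perm (Fin 4)) * swap 0 1 * (swap 0 2 * swap 1 3) =
    swap 2 3 := by decide

theorem p8 : (swap 0 2 : Perm (Fin 4)) * swap 1 2 * swap 0 2 = swap 0 1 := by decide

theorem p9 : (swap 0 2 * swap 1 3 : Perm (Fin 4)) * swap 2 3 * (swap 0 2 * swap 1 3) =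
    swap 0 1 := by decide

theorem sB_ne_one (k : ℕ) (v : Apg) (hv : Apg.rk v = 0) : sB k v ≠ 1 := by
  cases v with
  | vert i =>
    intro h
    have := congrFun h i
    rw [sB_self] at this
    exact p1 this
  | bot => simp at hv
  | edge i => simp at hv
  | top => simp at hv

theorem sB_mul_self (k : ℕ) (v : Apg) (_ : Apg.rk v = 0) : sB k v * sB k v = 1 := by
  cases v with
  | vert i =>
    funext x
    rw [Pi.mul_apply, sB_vert]
    split_ifs <;> simp
  | bot => rfl
  | edge i => rfl
  | top => rfl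

/-- The parabolic subgroup of an edge. -/
theorem par_edge (k : ℕ) (i : ℤ) : Par Apg.rk (sB k) (Apg.edge i) =
    Subgroup.closure {sB k (Apg.vert i), sB k (Apg.vert (i + 1))} := by
  rw [Par]
  congr 1
  ext x
  constructor
  · rintro ⟨v, hv, hle, rfl⟩
    cases v with
    | vert j =>
      simp only [Apg.vert_le_edge] at hle
      rcases hle with rfl | rfl
      · left; rfl
      · right; rfl
    | bot => simp at hv
    | edge i => simp at hv
    | top => simp at hv
  · rintro (rfl | rfl)
    · exact ⟨Apg.vert i, rfl, by simp, rfl⟩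
    · exact ⟨Apg.vert (i + 1), rfl, by simp, rfl⟩

/-- For a closure of two commuting distinct involutions. -/
theorem closure_pair_comm {G : Type} [Group G] (a b : G) (ha : a * a = 1) (hb : b * b = 1)
    (hab : a * b = b * a) (ha1 : a ≠ 1) (hb1 : b ≠ 1) (hne : a ≠ b) :
    ((Subgroup.closure {a, b} : Subgroup G) : Set G).ncard = 4 := by
  have hai : a⁻¹ = a := inv_eq_of_mul_eq_one_left ha
  have hbi : b⁻¹ = b := inv_eq_of_mul_eq_one_left hb
  have h1 : ((Subgroup.closure {a, b} : Subgroup G) : Set G) = ({1, a, b, a * b} : Set G) := by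
    apply Set.Subset.antisymm
    · intro x hx
      have hx' : x ∈ Subgroup.closure {a, b} := hx
      have hstep : ∀ x ∈ ({1, a, b, a * b} : Set G), ∀ y ∈ ({a, b} : Set G),
          x * y ∈ ({1, a, b, a * b} : Set G) := by
        rintro x (rfl | rfl | rfl | rfl) y (rfl | rfl)
        · simp
        · simp
        · simp [ha]
        · simp
        · simp [hab]
        · simp [hb]
        · rw [hab, mul_assoc, ha]; simp
        · rw [mul_assoc, hb]; simp
      clear hx
      induction hx' using Subgroup.closure_induction_right with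
      | one => simp
      | mul_right x hx y hy ih => exact hstep x ih y hy
      | mul_inv_cancel x hx y hy ih =>
        refine hstep x ih y⁻¹ ?_
        rcases hy with rfl | rfl
        · rw [hai]; simp
        · rw [hbi]; simp
    · rintro x (rfl | rfl | rfl | rfl)
      · exact one_mem _
      · exact Subgroup.subset_closure (by simp)
      · exact Subgroup.subset_closure (by simp)
      · exact mul_mem (Subgroup.subset_closure (by simp)) (Subgroup.subset_closure (by simp))
  rw [h1]
  have hab1 : a * b ≠ 1 := by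
    intro h
    exact hne (by rw [← hbi]; exact eq_inv_of_mul_eq_one_left h)
  rw [Set.ncard_insert_of_notMem, Set.ncard_insert_of_notMem, Set.ncard_pair]
  · simpa using ha1
  · simp [hne, hb1]
  · simp [ha1.symm, hb1.symm, hab1.symm]

theorem closure_pair_noncomm {G : Type} [Group G] (a b : G)
    (hab : a * b ≠ b * a) :
    ((Subgroup.closure {a, b} : Subgroup G) : Set G).ncard ≠ 4 := by
  have ha1 : a ≠ 1 := by rintro rfl; simp at hab
  have hb1 : b ≠ 1 := by rintro rfl; simp at hab
  have hne : a ≠ b := by rintro rfl; simp at hab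
  intro h
  have hfin := Set.finite_of_ncard_ne_zero (by rw [h]; norm_num)
  have hainv : a * b ≠ 1 := by
    intro h1
    have : b = a⁻¹ := by rw [eq_inv_iff_mul_eq_one]; exact mul_eq_one_iff_eq_inv.1 h1 ▸ (by simp)
    apply hab; rw [this]; simp
  have hbinv : b * a ≠ 1 := by
    intro h1
    have : b = a⁻¹ := eq_inv_of_mul_eq_one_left h1
    apply hab; rw [this]; simp
  have hsub : ({1, a, b, a * b, b * a} : Set G) ⊆ (Subgroup.closure {a, b} : Subgroup G) := by
    rintro x (rfl | rfl | rfl | rfl | rfl)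
    · exact one_mem _
    · exact Subgroup.subset_closure (by simp)
    · exact Subgroup.subset_closure (by simp)
    · exact mul_mem (Subgroup.subset_closure (by simp)) (Subgroup.subset_closure (by simp))
    · exact mul_mem (Subgroup.subset_closure (by simp)) (Subgroup.subset_closure (by simp))
  have h5 : ({1, a, b, a * b, b * a} : Set G).ncard = 5 := by
    rw [Set.ncard_insert_of_notMem, Set.ncard_insert_of_notMem, Set.ncard_insert_of_notMem,
      Set.ncard_pair]
    · exact hab
    · simp [ha1, hb1]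
    · simp [hne, hb1]
    · simp [ha1.symm, hb1.symm, hainv.symm, hbinv.symm]
  have := Set.ncard_le_ncard hsub hfin
  omega

theorem ncard_par_edge (k : ℕ) (i : ℤ) :
    ((Par Apg.rk (sB k) (Apg.edge i) : Subgroup GB) : Set GB).ncard = 4 ↔ ¬ (k : ℤ) ∣ i := by
  rw [par_edge]
  constructor
  · intro h hk
    refine closure_pair_noncomm _ _ ?_ h
    intro h2
    have := congrFun h2 i
    rw [Pi.mul_apply, Pi.mul_apply, sB_self, sB_succ, if_pos hk] at this
    exact p2 this
  · intro hk
    refine closure_pair_comm _ _ (sB_mul_self k _ rfl) (sB_mul_self k _ rfl) ?_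
      (sB_ne_one k _ rfl) (sB_ne_one k _ rfl) ?_
    · funext x
      rw [Pi.mul_apply, Pi.mul_apply]
      by_cases h1 : x = i
      · subst h1
        rw [sB_self, sB_succ, if_neg hk]
        exact p3
      · by_cases h2 : x = i + 1
        · subst h2
          have : sB k (Apg.vert i) (i + 1) = 1 := by
            rw [sB_vert, if_neg (by omega), if_neg (by omega)]
          rw [this]; simp
        · have : sB k (Apg.vert (i + 1)) x = 1 := by
            rw [sB_vert, if_neg h2, if_neg (by omega)]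
          rw [this]; simp
    · intro h
      have := congrFun h i
      rw [sB_self, sB_succ, if_neg hk] at this
      exact p5 this

/-- The number of vertices of a face at the base vertex. -/
theorem ncard_vertices (k : ℕ) (F : Apg) :
    {H : Ext Apg.rk (sB k) | H ≤ face Apg.rk (sB k) F 1 ∧ rkE Apg.rk (sB k) H = 0}.ncard =
      ((Par Apg.rk (sB k) F : Subgroup GB) : Set GB).ncard := by
  have hb : IsBot Apg.bot := Apg.bot_le'
  have hb1 : Apg.rk Apg.bot = -1 := rfl
  have hinj : Function.Injective (fun x : Tot Apg.rk (sB k) => face Apg.rk (sB k) Apg.bot x) :=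
    fun x y h => (face_bot_eq hb hb1).1 h
  have h1 : {H : Ext Apg.rk (sB k) | H ≤ face Apg.rk (sB k) F 1 ∧ rkE Apg.rk (sB k) H = 0} =
      (fun x : Tot Apg.rk (sB k) => face Apg.rk (sB k) Apg.bot x) ''
        {x | (x : GB) ∈ Par Apg.rk (sB k) F} := by
    ext H
    constructor
    · rintro ⟨h1, h2⟩
      rcases ext_cases Apg.bot hb H with rfl | ⟨F', w, rfl⟩
      · rw [rkE_lst] at h2; norm_num at h2
      · rw [rkE_face] at h2
        have hF' : F' = Apg.bot := by
          cases F' <;> simp at h2 ⊢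
        subst hF'
        refine ⟨w, ?_, rfl⟩
        have := inv_mem (face_le_face.1 h1).2
        simpa using this
    · rintro ⟨x, hx, rfl⟩
      refine ⟨face_le_face.2 ⟨hb F, ?_⟩, ?_⟩
      · have hx' : (x : GB) ∈ Par Apg.rk (sB k) F := hx
        have := inv_mem hx'
        simpa using this
      · rw [rkE_face]; rfl
  rw [h1, Set.ncard_image_of_injective _ hinj]
  have h2 : ((Par Apg.rk (sB k) F : Subgroup GB) : Set GB) =
      Subtype.val '' {x : Tot Apg.rk (sB k) | (x : GB) ∈ Par Apg.rk (sB k) F} := by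
    ext x
    constructor
    · intro hx
      exact ⟨⟨x, par_le_tot F hx⟩, hx, rfl⟩
    · rintro ⟨y, hy, rfl⟩
      exact hy
  rw [h2, Set.ncard_image_of_injective _ Subtype.val_injective]

theorem base_isAbstractPolytope (k : ℕ) :
    IsAbstractPolytope 3 (Ext Apg.rk (sB k)) (rkE Apg.rk (sB k)) :=
  ext_isAbstractPolytope Apg.isAbstractPolytope (sB_ne_one k) (sB_mul_self k)

theorem base_noDigon (k : ℕ) : NoDigon (Ext Apg.rk (sB k)) (rkE Apg.rk (sB k)) := by
  refine ext_noDigon Apg.isAbstractPolytope Apg.noDigon (sB_ne_one k) ?_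
  intro F hF
  cases F with
  | edge i =>
    refine ⟨Apg.vert i, Apg.vert (i + 1), rfl, rfl, by simp, by simp, ?_⟩
    intro h
    have := congrFun h i
    rw [sB_self, sB_succ] at this
    split_ifs at this
    · exact p4 this
    · exact p5 this
  | bot => simp at hF
  | vert i => simp at hF
  | top => simp at hF

/-- Automorphisms which fix the base vertex preserve divisibility of edge indices. -/
theorem edge_of_restrict (k : ℕ) (γ : Ext Apg.rk (sB k) ≃o Ext Apg.rk (sB k)) (α : Apg ≃o Apg)
    (hα : ∀ F, γ (face Apg.rk (sB k) F 1) = face Apg.rk (sB k) (α F) 1) (i j : ℤ)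
    (hij : α (Apg.edge i) = Apg.edge j) : (k : ℤ) ∣ i ↔ (k : ℤ) ∣ j := by
  have hE := base_isAbstractPolytope k
  have key : ((Par Apg.rk (sB k) (Apg.edge i) : Subgroup GB) : Set GB).ncard =
      ((Par Apg.rk (sB k) (Apg.edge j) : Subgroup GB) : Set GB).ncard := by
    rw [← ncard_vertices, ← ncard_vertices, ← hij, ← hα]
    have : {H | H ≤ γ (face Apg.rk (sB k) (Apg.edge i) 1) ∧ rkE Apg.rk (sB k) H = 0} =
        γ '' {H | H ≤ face Apg.rk (sB k) (Apg.edge i) 1 ∧ rkE Apg.rk (sB k) H = 0} := by
      ext H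
      constructor
      · rintro ⟨h1, h2⟩
        refine ⟨γ.symm H, ⟨?_, ?_⟩, by simp⟩
        · rw [← γ.le_iff_le]; simpa using h1
        · rw [← h2]; exact rk_apply hE γ.symm H
      · rintro ⟨H, ⟨h1, h2⟩, rfl⟩
        exact ⟨γ.le_iff_le.2 h1, by rw [rk_apply hE, h2]⟩
    rw [this, Set.ncard_image_of_injective _ γ.injective]
  have h1 := ncard_par_edge k i
  have h2 := ncard_par_edge k j
  rw [key] at h1
  exact not_iff_not.1 (h1.symm.trans h2)

theorem walk (α : Apg ≃o Apg) (i j : ℤ) (h1 : α (Apg.vert i) = Apg.vert j)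
    (h2 : α (Apg.edge i) = Apg.edge j) (t : ℕ) :
    α (Apg.vert (i + t)) = Apg.vert (j + t) ∧ α (Apg.edge (i + t)) = Apg.edge (j + t) := by
  induction t with
  | zero => simpa using ⟨h1, h2⟩
  | succ t ih =>
    obtain ⟨ih1, ih2⟩ := ih
    have hA := Apg.isAbstractPolytope
    -- the next vertex
    have hv : ∃ a, α (Apg.vert (i + t + 1)) = Apg.vert a := by
      have := rk_apply hA α (Apg.vert (i + t + 1))
      cases h : α (Apg.vert (i + t + 1)) <;> rw [h] at this <;> simp at this ⊢
    obtain ⟨a, ha⟩ := hv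
    have hle : Apg.vert a ≤ Apg.edge (j + t) := by
      rw [← ha, ← ih2, α.le_iff_le]; simp
    have hne : a ≠ j + t := by
      rintro rfl
      rw [← ih1] at ha
      have := α.injective ha
      simp at this
    have ha' : a = j + t + 1 := by
      rcases hle with h | h
      · exact absurd h hne
      · exact h
    subst ha'
    have he : ∃ a, α (Apg.edge (i + t + 1)) = Apg.edge a := by
      have := rk_apply hA α (Apg.edge (i + t + 1))
      cases h : α (Apg.edge (i + t + 1)) <;> rw [h] at this <;> simp at this ⊢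
    obtain ⟨c, hc⟩ := he
    have hle2 : Apg.vert (j + t + 1) ≤ Apg.edge c := by
      rw [← ha, ← hc, α.le_iff_le]; simp
    have hne2 : c ≠ j + t := by
      rintro rfl
      rw [← ih2] at hc
      have := α.injective hc
      simp at this
    have hc' : c = j + t + 1 := by
      rcases hle2 with h | h
      · exact h.symm
      · omega
    subst hc'
    push_cast
    rw [← add_assoc, ← add_assoc]
    exact ⟨ha, hc⟩

theorem fl_odd_vert (i : ℤ) (Φ : Flag Apg) (h : Φ = Apg.fl (2 * i + 1)) (a : ℤ) :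
    Apg.vert a ∈ Φ ↔ a = i := by
  subst h
  rw [Apg.mem_fl]
  simp
  omega

theorem fl_odd_edge (i : ℤ) (Φ : Flag Apg) (h : Φ = Apg.fl (2 * i + 1)) (a : ℤ) :
    Apg.edge a ∈ Φ ↔ a = i := by
  subst h
  rw [Apg.mem_fl]
  simp

/-- Claim A: inequivalence. -/
theorem claimA (k : ℕ) (hk : 1 ≤ k) (γ : Ext Apg.rk (sB k) ≃o Ext Apg.rk (sB k)) (i j : ℤ)
    (h : γ • flg (rk := Apg.rk) (s := sB k) Apg.bot Apg.bot_le' (Apg.fl (2 * i + 1)) 1 =
      flg Apg.bot Apg.bot_le' (Apg.fl (2 * j + 1)) 1) : (k : ℤ) ∣ j - i := by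
  have hA := Apg.isAbstractPolytope
  have hbase := base_of_smul_eq hA (sB_ne_one k) (sB_mul_self k) Apg.bot_le' rfl γ _ _ h
  obtain ⟨α, hα⟩ := exists_restrict Apg.bot_le' γ hbase
  have hfl := restrict_flag Apg.bot_le' γ α hα _ _ h
  have hv : α (Apg.vert i) ∈ Apg.fl (2 * j + 1) := by
    rw [← hfl]; exact ⟨Apg.vert i, (fl_odd_vert i _ rfl i).2 rfl, rfl⟩
  have he : α (Apg.edge i) ∈ Apg.fl (2 * j + 1) := by
    rw [← hfl]; exact ⟨Apg.edge i, (fl_odd_edge i _ rfl i).2 rfl, rfl⟩
  have hv' : α (Apg.vert i) = Apg.vert j := by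
    have := rk_apply hA α (Apg.vert i)
    cases h : α (Apg.vert i) with
    | vert a => rw [h] at hv; rw [(fl_odd_vert j _ rfl a).1 hv]
    | bot => rw [h] at this; simp at this
    | edge a => rw [h] at this; simp at this
    | top => rw [h] at this; simp at this
  have he' : α (Apg.edge i) = Apg.edge j := by
    have := rk_apply hA α (Apg.edge i)
    cases h : α (Apg.edge i) with
    | edge a => rw [h] at he; rw [(fl_odd_edge j _ rfl a).1 he]
    | bot => rw [h] at this; simp at this
    | vert a => rw [h] at this; simp at this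
    | top => rw [h] at this; simp at this
  have hk0 : (0 : ℤ) < k := by exact_mod_cast hk
  obtain ⟨t, ht⟩ := Int.eq_ofNat_of_zero_le (Int.emod_nonneg (-i) hk0.ne')
  have hdiv : (k : ℤ) ∣ i + t := by
    rw [← ht]
    have h5 := Int.emod_add_mul_ediv (-i) k
    refine ⟨-(-i / k), ?_⟩
    linear_combination h5
  have hw := walk α i j hv' he' t
  have h6 := (edge_of_restrict k γ α hα _ _ hw.2).1 hdiv
  have := dvd_sub h6 hdiv
  have e : j + (t : ℤ) - (i + t) = j - i := by ring
  rwa [e] at this

/-- The group automorphism inducing translations. -/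
def trG (c : ℤ) : GB ≃* GB where
  toFun g := fun x => g (x - c)
  invFun g := fun x => g (x + c)
  left_inv g := by funext x; simp
  right_inv g := by funext x; simp
  map_mul' g h := rfl

theorem trG_sB (k : ℕ) (c : ℤ) (hc : (k : ℤ) ∣ c) (v : Apg) (_ : Apg.rk v = 0) :
    trG c (sB k v) = sB k (Apg.tr c v) := by
  cases v with
  | vert i =>
    funext x
    change sB k (Apg.vert i) (x - c) = sB k (Apg.vert (i + c)) x
    rw [sB_vert, sB_vert]
    have h1 : x - c = i ↔ x = i + c := by omega
    have h2 : x - c = i - 1 ↔ x = i + c - 1 := by omega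
    have h3 : (k : ℤ) ∣ x - c ↔ (k : ℤ) ∣ x := by
      constructor
      · intro h; have := dvd_add h hc; simpa using this
      · intro h; exact dvd_sub h hc
    simp only [h1, h2, h3]
  | bot => rfl
  | edge i => rfl
  | top => rfl

/-- The conjugating permutation. -/
def hB (k : ℕ) (x : ℤ) : Perm (Fin 4) := if (k : ℤ) ∣ x then swap 0 2 else swap 0 2 * swap 1 3

theorem hB_neg (k : ℕ) (x : ℤ) : hB k (-x) = hB k x := by simp [hB]

theorem hB_mul_self (k : ℕ) (x : ℤ) : hB k x * hB k x = 1 := by
  unfold hB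
  split_ifs
  · decide
  · decide

/-- The group automorphism inducing the reflection. -/
def rfG (k : ℕ) : GB ≃* GB where
  toFun g := fun x => hB k x * g (-x) * hB k x
  invFun g := fun x => hB k x * g (-x) * hB k x
  left_inv g := by
    funext x
    simp only [hB_neg, neg_neg]
    calc hB k x * (hB k x * g x * hB k x) * hB k x
        = (hB k x * hB k x) * g x * (hB k x * hB k x) := by simp only [mul_assoc]
      _ = g x := by rw [hB_mul_self]; simp
  right_inv g := by
    funext x
    simp only [hB_neg, neg_neg]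
    calc hB k x * (hB k x * g x * hB k x) * hB k x
        = (hB k x * hB k x) * g x * (hB k x * hB k x) := by simp only [mul_assoc]
      _ = g x := by rw [hB_mul_self]; simp
  map_mul' g h := by
    funext x
    change hB k x * (g (-x) * h (-x)) * hB k x =
      (hB k x * g (-x) * hB k x) * (hB k x * h (-x) * hB k x)
    calc hB k x * (g (-x) * h (-x)) * hB k x
        = hB k x * g (-x) * 1 * h (-x) * hB k x := by simp only [mul_assoc, one_mul]
      _ = _ := by rw [← hB_mul_self k x]; simp only [mul_assoc]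

theorem rfG_sB (k : ℕ) (v : Apg) (hv : Apg.rk v = 0) :
    rfG k (sB k v) = sB k (Apg.rf v) := by
  cases v with
  | vert i =>
    funext x
    change hB k x * sB k (Apg.vert i) (-x) * hB k x = sB k (Apg.vert (1 - i)) x
    rw [sB_vert, sB_vert]
    by_cases h1 : -x = i
    · have e1 : ¬ x = 1 - i := by omega
      have e2 : x = 1 - i - 1 := by omega
      rw [if_pos h1, if_neg e1, if_pos e2]
      unfold hB
      split_ifs
      · exact p6
      · exact p7
    · by_cases h2 : -x = i - 1
      · have e1 : x = 1 - i := by omega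
        rw [if_neg h1, if_pos h2, if_pos e1]
        unfold hB
        have h3 : (k : ℤ) ∣ -x ↔ (k : ℤ) ∣ x := dvd_neg
        simp only [h3]
        split_ifs
        · exact p8
        · exact p9
      · have e1 : ¬ x = 1 - i := by omega
        have e2 : ¬ x = 1 - i - 1 := by omega
        rw [if_neg h1, if_neg h2, if_neg e1, if_neg e2, mul_one, hB_mul_self]
  | bot => simp at hv
  | edge i => simp at hv
  | top => simp at hv

/-- The automorphism of the base polyhedron induced by a translation. -/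
theorem exists_tr (k : ℕ) (c m : ℤ) (hc : (k : ℤ) ∣ c) :
    ∃ γ : Ext Apg.rk (sB k) ≃o Ext Apg.rk (sB k),
      γ • flg (rk := Apg.rk) (s := sB k) Apg.bot Apg.bot_le' (Apg.fl m) 1 =
        flg Apg.bot Apg.bot_le' (Apg.fl (m + 2 * c)) 1 := by
  have hA := Apg.isAbstractPolytope
  have h1 : Compat Apg.rk (sB k) (Apg.tr c) (trG c).toEquiv :=
    compat_of_mulEquiv hA _ _ (trG_sB k c hc)
  have h2 : Compat Apg.rk (sB k) (Apg.tr c).symm (trG c).toEquiv.symm :=
    compat_of_mulEquiv hA (Apg.tr c).symm (trG c).symm fun v hv => by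
      rw [MulEquiv.symm_apply_eq, trG_sB k c hc]
      · simp
      · rw [rk_apply hA]; exact hv
  refine ⟨isoOf _ _ h1 h2, ?_⟩
  rw [isoOf_smul_flg _ _ h1 h2 (Apg.fl m) 1 1 (by simp), Apg.tr_smul_fl]

/-- The automorphism of the base polyhedron induced by the reflection. -/
theorem exists_rf (k : ℕ) (m : ℤ) :
    ∃ γ : Ext Apg.rk (sB k) ≃o Ext Apg.rk (sB k),
      γ • flg (rk := Apg.rk) (s := sB k) Apg.bot Apg.bot_le' (Apg.fl m) 1 =
        flg Apg.bot Apg.bot_le' (Apg.fl (3 - m)) 1 := by
  have hA := Apg.isAbstractPolytope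
  have h1 : Compat Apg.rk (sB k) Apg.rf (rfG k).toEquiv :=
    compat_of_mulEquiv hA _ _ (rfG_sB k)
  have h2 : Compat Apg.rk (sB k) Apg.rf.symm (rfG k).toEquiv.symm :=
    compat_of_mulEquiv hA Apg.rf.symm (rfG k).symm fun v hv => by
      rw [MulEquiv.symm_apply_eq, rfG_sB k]
      · simp
      · rw [rk_apply hA]; exact hv
  refine ⟨isoOf _ _ h1 h2, ?_⟩
  rw [isoOf_smul_flg _ _ h1 h2 (Apg.fl m) 1 1 (by simp), Apg.rf_smul_fl]

/-- The base polyhedron has exactly `k` flag orbits. -/
theorem base_isKOrbit (k : ℕ) (hk : 1 ≤ k) : IsKOrbit k (Ext Apg.rk (sB k)) := by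
  have hA := Apg.isAbstractPolytope
  have hk0 : (0 : ℤ) < k := by exact_mod_cast hk
  rw [IsKOrbit]
  refine Eq.trans ?_ (Nat.card_fin k)
  symm
  refine Nat.card_congr (Equiv.ofBijective
    (fun c : Fin k => (Quotient.mk _ (flg (rk := Apg.rk) (s := sB k) Apg.bot Apg.bot_le'
      (Apg.fl (2 * (c.1 : ℤ) + 1)) 1) :
      MulAction.orbitRel.Quotient (Ext Apg.rk (sB k) ≃o Ext Apg.rk (sB k))
        (Flag (Ext Apg.rk (sB k))))) ⟨?_, ?_⟩)
  · intro c d h
    obtain ⟨γ, hγ⟩ := Quotient.exact h
    have h1 := claimA k hk γ d.1 c.1 hγ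
    have hc := c.2
    have hd := d.2
    apply Fin.ext
    obtain ⟨q, hq⟩ := h1
    have : q = 0 := by
      by_contra hne
      rcases lt_or_gt_of_ne hne with h | h
      · nlinarith
      · nlinarith
    subst this
    omega
  · intro y
    induction y using Quotient.inductionOn with
    | h Φ =>
    obtain ⟨φ, w, rfl⟩ := exists_flg_eq hA Apg.bot_le' rfl Φ
    obtain ⟨m, rfl⟩ := Apg.exists_fl φ
    obtain ⟨γ1, hγ1⟩ := smul_flg_one (hb := Apg.bot_le') (Apg.fl m) w
    -- make the index odd
    have hodd : ∃ i : ℤ, ∃ γ : Ext Apg.rk (sB k) ≃o Ext Apg.rk (sB k),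
        γ • flg (rk := Apg.rk) (s := sB k) Apg.bot Apg.bot_le' (Apg.fl (2 * i + 1)) 1 =
        flg Apg.bot Apg.bot_le' (Apg.fl m) 1 := by
      rcases Int.even_or_odd' m with ⟨i, rfl | rfl⟩
      · obtain ⟨γ, hγ⟩ := exists_rf k (2 * (1 - i) + 1)
        refine ⟨1 - i, γ, ?_⟩
        rw [hγ]
        congr 2
        ring
      · exact ⟨i, 1, one_smul _ _⟩
    obtain ⟨i, γ2, hγ2⟩ := hodd
    -- reduce modulo `k`
    obtain ⟨γ3, hγ3⟩ := exists_tr k (k * (i / k)) (2 * (i % k) + 1) (dvd_mul_right _ _)
    have hi : 2 * (i % k) + 1 + 2 * (k * (i / k)) = 2 * i + 1 := by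
      have := Int.emod_add_mul_ediv i k
      linear_combination 2 * this
    rw [hi] at hγ3
    have hlt := Int.emod_lt_of_pos i hk0
    obtain ⟨c, hc⟩ := Int.eq_ofNat_of_zero_le (Int.emod_nonneg i hk0.ne')
    refine ⟨⟨c, by omega⟩, ?_⟩
    apply Quotient.sound
    refine ⟨(γ1 * γ2 * γ3)⁻¹, ?_⟩
    change (γ1 * γ2 * γ3)⁻¹ • flg Apg.bot Apg.bot_le' (Apg.fl m) w = flg Apg.bot Apg.bot_le'
      (Apg.fl (2 * (c : ℤ) + 1)) 1
    rw [inv_smul_eq_iff, mul_smul, mul_smul, ← hc, hγ3, hγ2, hγ1]

/-- The main theorem. -/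
theorem main (k : ℕ) (hk : 1 ≤ k) (n : ℕ) (hn : 3 ≤ n) :
    ∃ (P : Type) (_ : PartialOrder P) (rk : P → ℤ),
      IsAbstractPolytope n P rk ∧ IsKOrbit k P ∧ NoDigon P rk := by
  induction n, hn using Nat.le_induction with
  | base =>
    exact ⟨Ext Apg.rk (sB k), inferInstance, rkE Apg.rk (sB k), base_isAbstractPolytope k,
      base_isKOrbit k hk, base_noDigon k⟩
  | succ n hn ih =>
    obtain ⟨K, inst, rk, h1, h2, h3⟩ := ih
    obtain ⟨h4, h5, h6⟩ := step h1 h2 h3
    exact ⟨Ext rk (sPow (K := K)), inferInstance, rkE rk sPow, h4, h5, h6⟩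

end Pool.Agent.Lib.MP_53fdf7_co
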