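import Mathlib

set_option autoImplicit false

namespace Pool.Agent.Lib.MP_53fdf7_co

/-- Two flags (maximal chains) are adjacent if they differ in exactly one face. -/
def FlagAdj {P : Type} [PartialOrder P] (A B : Flag P) : Prop :=
  ((A : Set P) \ (B : Set P)).ncard = 1 ∧ ((B : Set P) \ (A : Set P)).ncard = 1

/-- The poset `P` with rank function `rk` is an abstract `n`-polytope: the rank function is strictly
monotone, there is a least face, of rank `-1`, and a greatest face, of rank `n`; every flag
contains exactly one face of each rank `-1, ..., n`; `P` is strongly flag-connected; and the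
diamond condition holds. -/
structure IsAbstractPolytope (n : ℕ) (P : Type) [PartialOrder P] (rk : P → ℤ) : Prop where
  /-- The rank function is strictly monotone. -/
  strictMono : StrictMono rk
  /-- There is a least face, and it has rank `-1`. -/
  exists_least : ∃ F : P, (∀ G, F ≤ G) ∧ rk F = -1
  /-- There is a greatest face, and it has rank `n`. -/
  exists_greatest : ∃ F : P, (∀ G, G ≤ F) ∧ rk F = n
  /-- Every flag contains exactly one face of each rank. -/
  flag_rank : ∀ (Φ : Flag P) (i : ℤ), -1 ≤ i → i ≤ n → ∃! F : P, F ∈ Φ ∧ rk F = i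
  /-- Strong flag-connectivity: any two flags `Φ, Ψ` are joined by a sequence of successively
  adjacent flags, all of which contain `Φ ∩ Ψ`. -/
  strongly_flag_connected : ∀ Φ Ψ : Flag P,
    Relation.ReflTransGen
      (fun A B : Flag P => FlagAdj A B ∧ (Φ : Set P) ∩ Ψ ⊆ A ∧ (Φ : Set P) ∩ Ψ ⊆ B) Φ Ψ
  /-- The diamond condition. -/
  diamond : ∀ F G : P, F < G → rk G - rk F = 2 → {H : P | F < H ∧ H < G}.ncard = 2

/-- No section of rank `2` is a digon: for faces `F ≤ G` such that the section `G/F` has rank
`rk G - rk F - 1 = 2`, the polygon `G/F` does not have exactly two vertices. -/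
def NoDigon (P : Type) [PartialOrder P] (rk : P → ℤ) : Prop :=
  ∀ F G : P, F ≤ G → rk G - rk F - 1 = 2 →
    {H : P | F ≤ H ∧ H ≤ G ∧ rk H = rk F + 1}.ncard ≠ 2

/-- The automorphism group of `P` has exactly `k` orbits on the flags. -/
def IsKOrbit (k : ℕ) (P : Type) [PartialOrder P] : Prop :=
  Nat.card (MulAction.orbitRel.Quotient (P ≃o P) (Flag P)) = k

end Pool.Agent.Lib.MP_53fdf7_co
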